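import Pool.Agent.W859.AK.Stm

/-!
# Sums-differences with exponent 1.67108: statements

The same lemmas KT, Z, WD, AVG as for 1.67486; the parameter `k = 2` in the Z-lemma gives a
direct lower bound for the entropy of `Z`.
-/

set_option autoImplicit false

open Finset

namespace Pool.Agent.W904.AK
open Pool.Agent.W859.AK

/-- The inequality of the configuration `W1` with `k = 2`. -/
def S_W2 : Prop := ∀ (b : ℝ) (T : Finset ℚ) (w : ℚ → ℝ), Oracle b T w → 1 < b →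
  (∀ τ ∈ T, 1000 < τ) → ∀ r : ℚ, 2 < r → r < 2001 / 1000 → ∃ F : Finset ℚ,
  ∀ (Ω : Type) [Fintype Ω] (W : Type) [AddCommGroup W] [Module ℚ W] (p : Ω → ℝ) (X D : Ω → W)
    (h : ℝ), IsLaw p → Det p D X → (∀ t ∈ F, H p (pos X D t) ≤ h) →
    (b - 1) * ((6 * H p D - 3 * h - pp p X D 1 1 - pp p X D (-1) (-1)) - 2 * h +
        phi p X D (r * Z3 r) (Z3 r)) ≤
      Zub b T w (phi p X D) 1 (-1) (r * Z3 r) (Z3 r) h
        (4 * H p D - 2 * h - pp p X D (-1) (-1))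
        (6 * H p D - 3 * h - pp p X D 1 1 - pp p X D (-1) (-1))

/-- The condition of the step (with `K = ((b + 2) c - 2 - b) / b`). -/
def Good2 (b c : ℝ) : Prop := 1 < b ∧ b ≤ 2 ∧ 1 < c ∧ c ≤ b ∧
  b * (b - 1) * (2 - ((b + 2) * c - 2 - b) / b) +
    b * (b * (4 - ((b + 2) * c - 2 - b) / b) - (4 * c - 4)) - b * (b - 1) * (6 * c - 7) +
    (b - 1) ^ 2 * (2 - ((b + 2) * c - 2 - b) / b) < 0

/-- The step (from KT, W2, AVG, SHIFT). -/
def S_STEP2 : Prop := ∀ (b : ℝ) (T : Finset ℚ) (w : ℚ → ℝ), Oracle b T w → ∀ c : ℝ, Good2 b c →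
  ∃ T' : Finset ℚ, MaxForm c T'

end Pool.Agent.W904.AK
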