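import Pool.Agent.W410.AK.Step
import Pool.Agent.W904.AK.Stm2

/-!
# The step with `k = 2` (after helper410's step)
-/

set_option autoImplicit false
set_option linter.unusedSectionVars false

open Finset

namespace Pool.Agent.W904.AK
open Pool.Agent.W859.AK Pool.Agent.W410.AK

/-- the conclusion of `S_W2` -/
def WP2 (b : ℝ) (T : Finset ℚ) (w : ℚ → ℝ) (r : ℚ) (F : Finset ℚ) : Prop :=
  ∀ (Ω : Type) [Fintype Ω] (W : Type) [AddCommGroup W] [Module ℚ W] (p : Ω → ℝ) (X D : Ω → W)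
    (h : ℝ), IsLaw p → Det p D X → (∀ t ∈ F, H p (pos X D t) ≤ h) →
    (b - 1) * ((6 * H p D - 3 * h - pp p X D 1 1 - pp p X D (-1) (-1)) - 2 * h +
        phi p X D (r * Z3 r) (Z3 r)) ≤
      Zub b T w (phi p X D) 1 (-1) (r * Z3 r) (Z3 r) h
        (4 * H p D - 2 * h - pp p X D (-1) (-1))
        (6 * H p D - 3 * h - pp p X D 1 1 - pp p X D (-1) (-1))

section

variable {Ω : Type} [Fintype Ω] {W : Type} [AddCommGroup W] [Module ℚ W]
  {p : Ω → ℝ} {X D : Ω → W} {h δ : ℝ} {G : Finset (ℚ × ℚ)} {m : ℚ × ℚ → ℝ} {Q F : Finset ℚ}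
  {b : ℝ} {T : Finset ℚ} {w : ℚ → ℝ}

/-- the averaged inequality -/
theorem fin2 (c : Ctx p X D h δ G m Q F) (hb : 1 < b) (hw0 : ∀ t ∈ T, 0 ≤ w t)
    (hw1 : ∑ t ∈ T, w t = 1) {r : ℚ} {F' : Finset ℚ} (hWP : WP2 b T w r F')
    (hF' : F' ⊆ F) (hQ3 : Z3 r ∈ Q) {k : ℝ}
    (hk0 : k + δ ≤ Bp p X D G m r)
    (h1 : k ≤ ∑ τ ∈ T, w τ * Pb p X D G m (1 * (1 - th 1 (r * Z3 r) (Z3 r) τ))
      (1 * th 1 (r * Z3 r) (Z3 r) τ))
    (h2 : ∀ τ ∈ T, k ≤ ∑ σ ∈ T, w σ * Pb p X D G m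
      (-1 * (1 - th2 1 (-1) (th 1 (r * Z3 r) (Z3 r) τ) σ))
      (-1 * th2 1 (-1) (th 1 (r * Z3 r) (Z3 r) τ) σ)) :
    ∃ P1 : ℝ, |P1 - PP p X D G m| ≤ δ ∧
      (b - 1) * ((6 * H p D - 3 * h - P1 - PP p X D G m) - 2 * h + k) ≤
        b * (2 * h + (b * (4 * h - k) - (4 * H p D - 2 * h - PP p X D G m)) / (b - 1)
        - k) - (6 * H p D - 3 * h - P1 - PP p X D G m) := by
  have hv : ∀ v ∈ G,
      (b - 1) * ((6 * H p D - 3 * h - pp p (pos X D v.2) (fun z => v.1 • D z) 1 1 -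
          pp p (pos X D v.2) (fun z => v.1 • D z) (-1) (-1)) - 2 * h +
          phi p (pos X D v.2) (fun z => v.1 • D z) (r * Z3 r) (Z3 r)) ≤
        Zub b T w (phi p (pos X D v.2) (fun z => v.1 • D z)) 1 (-1)
        (r * Z3 r) (Z3 r) h
        (4 * H p D - 2 * h - pp p (pos X D v.2) (fun z => v.1 • D z) (-1) (-1))
        (6 * H p D - 3 * h - pp p (pos X D v.2) (fun z => v.1 • D z) 1 1 -
          pp p (pos X D v.2) (fun z => v.1 • D z) (-1) (-1)) := by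
    intro v hv
    have h5 := hWP Ω W p (pos X D v.2) (fun z => v.1 • D z) h c.law
        (det_smul c.det (c.G0 v hv) v.2) (fun t ht => by
          rw [pos_pos]; exact c.hF v hv t (hF' ht))
    rw [H_smul (c.G0 v hv)] at h5
    exact h5
  refine ⟨bar G m (fun v => pp p (pos X D v.2) (fun z => v.1 • D z) 1 1), c.P1, ?_⟩
  have h5 := bar_mono c.m0 hv
  rw [bar_mul, bar_Zub c.m1, bar_add, bar_sub, bar_sub, bar_sub, bar_const c.m1, bar_const c.m1,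
    c.Pm, bar_sub, bar_const c.m1, c.Pm] at h5
  have a3 := c.phi_ge hQ3 (y := r * Z3 r) (ρ := r) (by ring)
  rw [c.pb_swap] at a3
  unfold Pb at a3
  refine le_trans (mul_le_mul_of_nonneg_left ?_ (by linarith))
    (h5.trans (Zub_le hb hw0 hw1 h1 h2 le_rfl le_rfl))
  linarith

end

/-- the final computation -/
theorem algebra2 {b c h P P1 δ K k : ℝ} (hb1 : 1 < b) (hb2 : b ≤ 2)
    (hP : P ≤ 2 * h) (hδ : 0 ≤ δ) (hP1 : |P1 - P| ≤ δ)
    (hK : K = (3 * (c * h) - 2 * h + (b - 1) * (c * h + P - 2 * h)) / b - h)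
    (hk : k = K - 2 * δ)
    (h1 : (b - 1) * ((6 * (c * h) - 3 * h - P1 - P) - 2 * h + k) ≤
      b * (2 * h + (b * (4 * h - k) - (4 * (c * h) - 2 * h - P)) / (b - 1)
        - k) - (6 * (c * h) - 3 * h - P1 - P)) :
    -(h * (b * (b - 1) * (2 - ((b + 2) * c - 2 - b) / b) +
    b * (b * (4 - ((b + 2) * c - 2 - b) / b) - (4 * c - 4)) - b * (b - 1) * (6 * c - 7) +
    (b - 1) ^ 2 * (2 - ((b + 2) * c - 2 - b) / b))) ≤ 16 * δ := by
  obtain ⟨p1, p2⟩ := abs_le.mp hP1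
  have hu : 0 < b - 1 := by linarith
  have hb0 : 0 < b := by linarith
  set u := b - 1 with hu'
  have g1 : u ^ 2 * ((6 * (c * h) - 3 * h - P1 - P) - 2 * h + k) ≤
      u * b * (2 * h - k) + b * (b * (4 * h - k) - (4 * (c * h) - 2 * h - P)) -
      u * (6 * (c * h) - 3 * h - P1 - P) := by
    have := mul_le_mul_of_nonneg_left h1 hu.le
    have e : u * (b * (2 * h + (b * (4 * h - k) - (4 * (c * h) - 2 * h - P)) / u
        - k) - (6 * (c * h) - 3 * h - P1 - P)) = u * b * (2 * h - k) +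
        b * (b * (4 * h - k) - (4 * (c * h) - 2 * h - P)) -
      u * (6 * (c * h) - 3 * h - P1 - P) := by
      field_simp
      ring
    rw [e] at this
    calc u ^ 2 * ((6 * (c * h) - 3 * h - P1 - P) - 2 * h + k) =
        u * (u * ((6 * (c * h) - 3 * h - P1 - P) - 2 * h + k)) := by ring
      _ ≤ _ := this
  set y := P1 - P with hy
  have hP1' : P1 = P + y := by rw [hy]; ring
  rw [hP1'] at g1
  have g4 : u ^ 2 * y ≤ u ^ 2 * δ := mul_le_mul_of_nonneg_left p2 (sq_nonneg u)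
  have g5 : u * y ≤ u * δ := mul_le_mul_of_nonneg_left p2 hu.le
  set x := 2 * h - P with hx
  have hx0 : 0 ≤ x := by linarith
  have hP' : P = 2 * h - x := by rw [hx]; ring
  have hcoef : u ^ 3 / b - 1 - 2 * u ≤ 0 := by
    have c1 : u ^ 3 / b ≤ 1 := by
      rw [div_le_one hb0]
      have : u ^ 3 ≤ 1 := pow_le_one₀ hu.le (by linarith)
      linarith
    linarith
  have hxc := mul_nonneg hx0 (neg_nonneg.mpr hcoef)
  have key : u * b * (2 * h - k) + b * (b * (4 * h - k) - (4 * (c * h) - 2 * h - P)) -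
      u * (6 * (c * h) - 3 * h - 2 * P) - u ^ 2 * (6 * (c * h) - 5 * h - 2 * P + k) =
      h * (b * u * (2 - ((b + 2) * c - 2 - b) / b) +
    b * (b * (4 - ((b + 2) * c - 2 - b) / b) - (4 * c - 4)) - b * u * (6 * c - 7) +
    u ^ 2 * (2 - ((b + 2) * c - 2 - b) / b)) +
      x * (u ^ 3 / b - 1 - 2 * u) + (2 * u ^ 2 + 2 * (u * b) + 2 * b ^ 2) * δ := by
    rw [hk, hK, hP', hu']
    field_simp
    ring
  have hE : (u ^ 2 + u + 2 * u ^ 2 + 2 * (u * b) + 2 * b ^ 2) * δ ≤ 16 * δ := by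
    refine mul_le_mul_of_nonneg_right ?_ hδ
    have q1 : u ^ 2 ≤ 1 := pow_le_one₀ hu.le (by linarith)
    have q2 : u * b ≤ 1 * 2 := mul_le_mul (by linarith) hb2 hb0.le one_pos.le
    have q3 : b ^ 2 ≤ 2 ^ 2 := pow_le_pow_left₀ hb0.le hb2 2
    linarith
  linarith

/-- the multipliers for the modulus `r` -/
def Qr2 (T : Finset ℚ) (r : ℚ) : Finset ℚ :=
  {Z3 r} ∪ (QO T 1 (r * Z3 r) (Z3 r) ∪ QI T 1 (-1) (r * Z3 r) (Z3 r))

/-- all multipliers -/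
def QQ2 (T : Finset ℚ) : Finset ℚ := insert (-1) (T.biUnion (fun t => Qr2 T (2 + 1 / t)))

theorem QQ2_ne {T : Finset ℚ} (hT : ∀ t ∈ T, 1000 < t) : ∀ q ∈ QQ2 T, q ≠ 0 := by
  intro q hq
  unfold QQ2 at hq
  rcases Finset.mem_insert.mp hq with rfl | hq
  · norm_num
  obtain ⟨t, ht, hq⟩ := Finset.mem_biUnion.mp hq
  obtain ⟨r1, r2⟩ := r_bd (hT t ht)
  set r := 2 + 1 / t with hr
  unfold Qr2 at hq
  rcases Finset.mem_union.mp hq with hq | hq
  · rw [Finset.mem_singleton] at hq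
    rw [hq]
    exact (Pool.Agent.W410.AK.Z3_bd r1 r2).1.ne'
  rcases Finset.mem_union.mp hq with hq | hq
  · exact QO_ne hT (out1 r1 r2) q hq
  · exact QI_ne hT (fun τ hτ => inn1 ((out1 r1 r2).thp τ (hT τ hτ))) q hq

/-- heights for the modulus `r` -/
def Fr2 (FK : ℚ → ℚ → ℚ → Finset ℚ) (FW : ℚ → Finset ℚ) (T : Finset ℚ) (r : ℚ) : Finset ℚ :=
  FW r ∪ (FO FK 1 (r * Z3 r) (Z3 r) ∪ FI FK T 1 (-1) (r * Z3 r) (Z3 r))

/-- all heights -/
def FF2 (FK : ℚ → ℚ → ℚ → Finset ℚ) (FW : ℚ → Finset ℚ) (T : Finset ℚ) : Finset ℚ :=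
  FK 2 (-1 / 2) 0 ∪ T.biUnion (fun t => Fr2 FK FW T (2 + 1 / t))

theorem STEP2 (hKT : S_KT) (hW : S_W2) (hAVG : S_AVG) (hSH : S_SHIFT) : S_STEP2 := by
  intro b T₀ w₀ hO₀ c hg
  obtain ⟨hb1, hb2, hc1, hcb, hneg⟩ := hg
  obtain ⟨T, w, hO, hT⟩ := hSH b T₀ w₀ hO₀ 1000
  have hw0 := hO.1
  have hw1 := hO.2.1
  have hK : ∀ m t0 tp : ℚ, ∃ F : Finset ℚ, m ≠ 0 → t0 ≠ tp →
      (∀ t ∈ T, t ≠ t0 ∧ t ≠ tp) → KTP b T w m t0 tp F := by
    intro m t0 tp
    by_cases h : m ≠ 0 ∧ t0 ≠ tp ∧ ∀ t ∈ T, t ≠ t0 ∧ t ≠ tp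
    · obtain ⟨F, hF⟩ := hKT b T w hO hb1 m t0 tp h.1 h.2.1 h.2.2
      exact ⟨F, fun _ _ _ => hF⟩
    · exact ⟨∅, fun h1 h2 h3 => absurd ⟨h1, h2, h3⟩ h⟩
  choose FK hFK using hK
  have hW' : ∀ r : ℚ, ∃ F : Finset ℚ, 2 < r → r < 2001 / 1000 → WP2 b T w r F := by
    intro r
    by_cases h : 2 < r ∧ r < 2001 / 1000
    · obtain ⟨F, hF⟩ := hW b T w hO hb1 hT r h.1 h.2
      exact ⟨F, fun _ _ => hF⟩
    · exact ⟨∅, fun h1 h2 => absurd ⟨h1, h2⟩ h⟩
  choose FW hFW using hW'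
  set E := b * (b - 1) * (2 - ((b + 2) * c - 2 - b) / b) +
    b * (b * (4 - ((b + 2) * c - 2 - b) / b) - (4 * c - 4)) - b * (b - 1) * (6 * c - 7) +
    (b - 1) ^ 2 * (2 - ((b + 2) * c - 2 - b) / b) with hE
  have hc0 : 0 < c := by linarith
  obtain ⟨ε, hε, hε2⟩ : ∃ ε : ℝ, 0 < ε ∧ 32 * ε * c < -E := by
    refine ⟨-E / (100 * c), div_pos (by linarith) (by linarith), ?_⟩
    have : 32 * (-E / (100 * c)) * c = 32 / 100 * (-E) := by
      field_simp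
    rw [this]
    linarith
  obtain ⟨G, m, G0, m0, m1, havg⟩ := hAVG (QQ2 T) {1} ε hε (QQ2_ne hT)
  refine ⟨(G ×ˢ FF2 FK FW T).image (fun x => x.1.2 + x.1.1 * x.2) ∪
    G.image (fun v => v.2 + -v.1), ?_⟩
  intro Ω _ W _ _ p X D hp hd
  by_contra hcon
  push Not at hcon
  obtain ⟨v0, hv0⟩ : G.Nonempty := by
    rw [Finset.nonempty_iff_ne_empty]
    intro h0
    rw [h0, Finset.sum_empty] at m1
    exact zero_ne_one m1
  have hα : 0 < H p D := by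
    have h1 := hcon (v0.2 + -v0.1) (Finset.mem_union_right _
      (Finset.mem_image_of_mem (fun v : ℚ × ℚ => v.2 + -v.1) hv0))
    have h2 := H_nonneg hp (fun x => X x + (v0.2 + -v0.1) • D x)
    have h3 := mul_nonneg hc0.le h2
    linarith
  obtain ⟨h, hh⟩ : ∃ h : ℝ, h = H p D / c := ⟨_, rfl⟩
  have hh0 : 0 < h := by rw [hh]; exact div_pos hα hc0
  have hαh : H p D = c * h := by rw [hh, mul_div_cancel₀ _ hc0.ne']
  have hlt : ∀ t ∈ (G ×ˢ FF2 FK FW T).image (fun x => x.1.2 + x.1.1 * x.2) ∪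
      G.image (fun v => v.2 + -v.1), H p (pos X D t) ≤ h := by
    intro t ht
    have h1 := hcon t ht
    rw [hh, le_div_iff₀ hc0, mul_comm]
    exact h1.le
  have hR : 0 ≤ 2 * H p D := by linarith
  have ctx : Ctx p X D h (ε * (2 * H p D)) G m (QQ2 T) (FF2 FK FW T) := by
    refine ⟨hp, hd, G0, m0, m1, Finset.mem_insert_self _ _, ?_, ?_, ?_⟩
    · intro g hg0 hg1
      obtain ⟨a1, a2⟩ := havg g (2 * H p D) hg0 hg1
      exact ⟨a1, a2 1 (Finset.mem_singleton_self _)⟩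
    · intro v hv t ht
      refine hlt _ (Finset.mem_union_left _ (Finset.mem_image.mpr ⟨(v, t), ?_, rfl⟩))
      exact Finset.mem_product.mpr ⟨hv, ht⟩
    · intro v hv
      exact hlt _ (Finset.mem_union_right _ (Finset.mem_image_of_mem
        (fun v : ℚ × ℚ => v.2 + -v.1) hv))
  set δ := ε * (2 * H p D) with hδ
  have hδ0 : 0 ≤ δ := ctx.δ0
  -- the modulus
  have hK2 : KTP b T w 2 (-1 / 2) 0 (FK 2 (-1 / 2) 0) := by
    refine hFK 2 (-1 / 2) 0 (by norm_num) (by norm_num) ?_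
    intro t ht
    have := hT t ht
    exact ⟨by intro h0; linarith, by intro h0; linarith⟩
  have h0 := ctx.kt hb1 hK2 Finset.subset_union_left
  obtain ⟨t, ht, hrt⟩ := exists_weight (f := fun t => Bp p X D G m (2 * (t - -1 / 2) / (t - 0)))
    hw0 hw1 h0
  obtain ⟨r1, r2⟩ := r_bd (hT t ht)
  have ht0 : t ≠ 0 := by have := hT t ht; intro h0; linarith
  have er : 2 * (t - -1 / 2) / (t - 0) = 2 + 1 / t := by
    rw [sub_zero]
    field_simp
    ring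
  have hsubQ : Qr2 T (2 + 1 / t) ⊆ QQ2 T :=
    (Finset.subset_biUnion_of_mem (fun t => Qr2 T (2 + 1 / t)) ht).trans
      (Finset.subset_insert _ _)
  have hsubF : Fr2 FK FW T (2 + 1 / t) ⊆ FF2 FK FW T :=
    (Finset.subset_biUnion_of_mem (fun t => Fr2 FK FW T (2 + 1 / t)) ht).trans
      Finset.subset_union_right
  simp only [er] at hrt
  generalize 2 + 1 / t = r at r1 r2 er hsubQ hsubF hrt
  have o1 := out1 r1 r2
  -- outer family
  have k1 := ctx.out (F' := FO FK 1 (r * Z3 r) (Z3 r)) hb1 hw0 hw1 hT o1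
    (hFK _ _ _ o1.m0 o1.tt (fun t ht => o1.ts t (hT t ht)))
    ((Finset.subset_union_left.trans Finset.subset_union_right).trans hsubF)
    (fun τ hτ => hsubQ (Finset.mem_union_right _ (Finset.mem_union_left _
      (Finset.mem_image_of_mem _ hτ))))
  -- inner families
  have k2 : ∀ τ ∈ T, KK b p X D h G m - 2 * δ ≤ ∑ σ ∈ T, w σ * Pb p X D G m
      (-1 * (1 - th2 1 (-1) (th 1 (r * Z3 r) (Z3 r) τ) σ))
      (-1 * th2 1 (-1) (th 1 (r * Z3 r) (Z3 r) τ) σ) := by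
    intro τ hτ
    have i1 := inn1 (o1.thp τ (hT τ hτ))
    refine ctx.inn hb1 hw0 hw1 hT i1 (hFK _ _ _ i1.m0 i1.tt (fun t ht => i1.ts t (hT t ht))) ?_ ?_
    · refine Finset.Subset.trans ?_ ((Finset.subset_union_right.trans
        Finset.subset_union_right).trans hsubF)
      exact Finset.subset_biUnion_of_mem (fun τ => FK (1 * th 1 (r * Z3 r) (Z3 r) τ /
        (-1 - 1 * th 1 (r * Z3 r) (Z3 r) τ)) (-1)
        (-1 * 1 * (1 - th 1 (r * Z3 r) (Z3 r) τ) / (-1 - 1 * th 1 (r * Z3 r) (Z3 r) τ))) hτ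
    · intro σ hσ
      refine hsubQ (Finset.mem_union_right _ (Finset.mem_union_right _ ?_))
      exact Finset.mem_biUnion.mpr ⟨τ, hτ, Finset.mem_image_of_mem
        (fun σ => -1 * (1 - th2 1 (-1) (th 1 (r * Z3 r) (Z3 r) τ) σ)) hσ⟩
  obtain ⟨P1, e0, e1⟩ := fin2 (k := KK b p X D h G m - 2 * δ) ctx hb1 hw0 hw1
    (hFW r r1 r2) (Finset.subset_union_left.trans hsubF)
    (hsubQ (Finset.mem_union_left _ (by simp)))
    (by linarith) k1 k2
  rw [hαh] at e1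
  have hKK : KK b p X D h G m =
      (3 * (c * h) - 2 * h + (b - 1) * (c * h + PP p X D G m - 2 * h)) / b - h := by
    unfold KK
    rw [hαh]
  have hfin := algebra2 (P := PP p X D G m) (P1 := P1) (K := KK b p X D h G m)
    (k := KK b p X D h G m - 2 * δ) hb1 hb2 ctx.P_le hδ0 e0 hKK rfl e1
  rw [← hE] at hfin
  have h9 : 16 * δ = h * (32 * ε * c) := by
    rw [hδ, hαh]
    ring
  rw [h9] at hfin
  have h10 : h * (32 * ε * c) < h * (-E) := mul_lt_mul_of_pos_left hε2 hh0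
  linarith

end Pool.Agent.W904.AK
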