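import Pool.Agent.W904.AK.Stm2
import Pool.Agent.W859.AK.W

/-!
# The inequality of the configuration `W1` with `k = 2`
-/

set_option autoImplicit false
set_option linter.unusedSectionVars false
set_option linter.unusedVariables false

open Finset

namespace Pool.Agent.W904.AK
open Pool.Agent.W859.AK

/-- Heights of the pair through the point `(r ζ, ζ)` and the point `(-1, 2)`. -/
def hu (r ζ : ℚ) : ℚ := r * ζ + ζ * (1 + r * ζ) / (2 - ζ)
def hv (r ζ : ℚ) : ℚ := ζ + r * ζ * (2 - ζ) / (1 + r * ζ)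

section Core

variable {Ω' : Type} [Fintype Ω'] {W : Type} [AddCommGroup W] [Module ℚ W] {q : Ω' → ℝ}

theorem core2 (hq : IsLaw q) (A x0 x1 x2 x4 : Ω' → W) (r ζ : ℚ) (hr : 0 < r) (hζ : 0 < ζ)
    (hζ2 : ζ < 1 / 2) (hrζ : r * ζ < 1) (h z HW : ℝ) (h01 : r * ζ + ζ ≠ 1)
    (d1 : Det q x1 A)
    (d2 : Det q x2 (fun v => A v + x0 v - x2 v))
    (d4 : Det q x4 (fun v => A v - x0 v + x4 v))
    (h2 : H q (fun v => A v + x0 v - x2 v + hu r ζ • x2 v) ≤ h)
    (h3 : H q (fun v => A v + x0 v - x2 v + hv r ζ • (x2 v + x1 v - x0 v)) ≤ h)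
    (hz : H q (fun v => (A v + x0 v - x2 v + (r * ζ) • x2 v + ζ • (x2 v + x1 v - x0 v),
      (1 - 2 : ℚ) • (A v + x0 v) + (2 : ℚ) • (A v + x1 v) + x4 v)) = z)
    (hW : HW ≤ H q (fun v => (x0 v, x1 v, x2 v, x4 v))) :
    HW + H q (fun v => A v + x0 v - x2 v + (r * ζ) • x2 v + ζ • (x2 v + x1 v - x0 v)) ≤
      z + 2 * h := by
  have n1 : 2 - ζ ≠ 0 := by linarith
  have n2 : 1 + r * ζ ≠ 0 := by nlinarith
  set FZ : Ω' → W := fun v => A v + x0 v - x2 v + (r * ζ) • x2 v + ζ • (x2 v + x1 v - x0 v)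
    with hFZ
  set P2 : Ω' → W := fun v => A v + x0 v - x2 v + hu r ζ • x2 v with hP2
  set P3 : Ω' → W := fun v => A v + x0 v - x2 v + hv r ζ • (x2 v + x1 v - x0 v) with hP3
  set kap : Ω' → W := fun v => (1 - 2 : ℚ) • (A v + x0 v) + (2 : ℚ) • (A v + x1 v) + x4 v
    with hkap
  have hu0 : hu r ζ = (2 * (r * ζ) + ζ) / (2 - ζ) := by
    unfold hu
    field_simp
    ring
  have hv0 : hv r ζ = (2 * (r * ζ) + ζ) / (1 + r * ζ) := by
    unfold hv
    field_simp
    ring
  have s0 : 0 < 2 * (r * ζ) + ζ := by nlinarith [mul_pos hr hζ]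
  have n0 : 2 * (r * ζ) + ζ ≠ 0 := s0.ne'
  have n0' : 2 * r + 1 ≠ 0 := by linarith
  have e23 : H q (fun v => (P2 v, P3 v)) ≤ 2 * h := by
    have := subadd hq (Det.refl q (fun v => (P2 v, P3 v)))
    linarith
  have rFZ : ∀ v, FZ v = ((r * ζ * (2 - ζ)) / (2 * (r * ζ) + ζ)) • P2 v +
      (ζ * (1 + r * ζ) / (2 * (r * ζ) + ζ)) • P3 v := by
    intro v
    simp only [hFZ, hP2, hP3, hu0, hv0]
    match_scalars <;> field_simp <;> ring
  have rm : ∀ v, (1 - 2 : ℚ) • (A v + x0 v) + (2 : ℚ) • (A v + x1 v) =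
      (-(2 - ζ) / (2 * (r * ζ) + ζ)) • P2 v +
      (2 * (1 + r * ζ) / (2 * (r * ζ) + ζ)) • P3 v := by
    intro v
    simp only [hP2, hP3, hu0, hv0]
    match_scalars <;> field_simp <;> ring
  have := submod' hq (f := fun v => (FZ v, kap v)) (g := fun v => (P2 v, P3 v)) (h := FZ)
    (k := fun v => (x0 v, x1 v, x2 v, x4 v)) (Det.fst q _ _)
    (by
      intro v v' _ _ e
      simp only [Prod.mk.injEq] at e
      rw [rFZ v, rFZ v', e.1, e.2])
    (by
      intro v v' hv' hv'' e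
      simp only [Prod.mk.injEq] at e
      obtain ⟨⟨ea, eb⟩, ec, ed⟩ := e
      have em : (1 - 2 : ℚ) • (A v + x0 v) + (2 : ℚ) • (A v + x1 v) =
          (1 - 2 : ℚ) • (A v' + x0 v') + (2 : ℚ) • (A v' + x1 v') := by
        rw [rm v, rm v', ec, ed]
      have f4 : x4 v = x4 v' := by
        simp only [hkap] at eb
        linear_combination (norm := module) eb - em
      have g4 := d4 v v' hv' hv'' f4
      dsimp only at g4
      -- E
      have eE : A v - x0 v = A v' - x0 v' := by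
        linear_combination (norm := module) g4 - f4
      have f1 : x1 v = x1 v' := by
        linear_combination (norm := module) (1 / 2 : ℚ) • em - (1 / 2 : ℚ) • eE
      have fA : A v = A v' := d1 v v' hv' hv'' f1
      have f0 : x0 v = x0 v' := by
        linear_combination (norm := module) fA - eE
      have f2 : x2 v = x2 v' := by
        have h9 : (r * ζ + ζ - 1) ≠ 0 := sub_ne_zero.2 h01
        simp only [hFZ] at ea
        have h10 : (r * ζ + ζ - 1) • x2 v = (r * ζ + ζ - 1) • x2 v' := by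
          linear_combination (norm := module) ea - fA - (1 - ζ) • f0 - ζ • f1
        have h11 := congrArg (fun y => (r * ζ + ζ - 1)⁻¹ • y) h10
        simpa only [smul_smul, inv_mul_cancel₀ h9, one_smul] using h11
      simp only [Prod.mk.injEq]
      exact ⟨f0, f1, f2, f4⟩)
  linarith

end Core

lemma Z3_sum {r : ℚ} (hr : 2 < r) (hr' : r < 2001 / 1000) : r * Z3 r + Z3 r ≠ 1 := by
  obtain ⟨h1, h2⟩ := Z3_bd hr hr'
  intro h
  nlinarith

lemma chi2_bd {θ σ : ℚ} (h1 : 28 / 100 < θ) (h2 : θ < 32 / 100) (hσ : 1000 < σ) :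
    -1192 / 1000 < chi 1 (-1) 2 1 θ σ ∧ chi 1 (-1) 2 1 θ σ < -116 / 100 := by
  have h5 : 0 < (2 - θ) * (σ - 1) := by apply mul_pos <;> linarith
  have h6 : 16 / 100 < 1 * θ * (σ - -1) / ((2 - θ) * (σ - 1)) := by
    rw [lt_div_iff₀ h5]; nlinarith
  have h7 : 1 * θ * (σ - -1) / ((2 - θ) * (σ - 1)) < 192 / 1000 := by
    rw [div_lt_iff₀ h5]; nlinarith
  unfold chi
  constructor <;> linarith

theorem W2 (hZ : S_Z) (hWD : S_WD) : S_W2 := by
  intro b T w hO hb hT r hr hr'
  obtain ⟨zb1, zb2⟩ := Z3_bd hr hr'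
  obtain ⟨F1, hF1⟩ := hZ b T w hO hb 1 (-1) 2 (r * Z3 r) (Z3 r) 1 (by norm_num)
    (by norm_num) (by norm_num) (by linarith) (by norm_num) (by linarith) (by nlinarith)
    (by
      intro τ hτ
      have t1 := hT τ hτ
      obtain ⟨a1, a2⟩ := th1_bd hr hr' t1
      refine ⟨by linarith, by linarith, by linarith, ?_, ?_, ?_, ?_, ?_⟩
      · intro h; nlinarith
      · intro h; nlinarith
      · intro h; linarith
      · intro h; linarith
      · intro h; linarith)
    (by
      intro τ hτ σ hσ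
      have t1 := hT τ hτ
      have t2 := hT σ hσ
      obtain ⟨a1, a2⟩ := th1_bd hr hr' t1
      obtain ⟨b1, b2⟩ := th21_bd a1 a2 t2
      obtain ⟨c1, c2⟩ := chi2_bd a1 a2 t2
      refine ⟨?_, ?_, ?_, ?_⟩
      · intro h; linarith
      · intro h; linarith
      · intro h; linarith
      · intro h; linarith)
  refine ⟨F1 ∪ {0, hu r (Z3 r), hv r (Z3 r)}, ?_⟩
  intro Ω _ W _ _ p X D h hp hd hF
  obtain ⟨Ω', _, q, L, hD⟩ := hWD Ω W p X D hp hd
  have hq := hD.law
  have hX : H p X ≤ h := by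
    have := hF 0 (by simp)
    have e : pos X D 0 = X := by
      funext z; simp [pos]
    rwa [e] at this
  have f1 : ∀ z, q z ≠ 0 → X (L 1 z) = X (L 0 z) := fun z hz => (hD.i01 z hz).symm
  have f2 : ∀ z, q z ≠ 0 → X (L 2 z) = X (L 0 z) + D (L 0 z) - D (L 2 z) := by
    intro z hz
    have := hD.i02 z hz
    simp only [pos] at this
    linear_combination (norm := module) -this
  have f3 : ∀ z, q z ≠ 0 → X (L 3 z) = X (L 0 z) + D (L 0 z) - D (L 2 z) := by
    intro z hz
    rw [← hD.i23 z hz, f2 z hz]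
  have g3 : ∀ z, q z ≠ 0 → D (L 3 z) = D (L 2 z) + D (L 1 z) - D (L 0 z) := by
    intro z hz
    have h1 := hD.i13 z hz
    have h2 := f3 z hz
    have h3 := f1 z hz
    simp only [pos] at h1
    linear_combination (norm := module) -h1 + h3 - h2
  have f4 : ∀ z, q z ≠ 0 → X (L 4 z) = X (L 0 z) - D (L 0 z) + D (L 4 z) := by
    intro z hz
    have := hD.i04 z hz
    simp only [pos] at this
    linear_combination (norm := module) -this
  have f5 : ∀ z, q z ≠ 0 → X (L 5 z) = X (L 0 z) - D (L 0 z) + D (L 4 z) := by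
    intro z hz
    rw [← hD.i45 z hz, f4 z hz]
  have g5 : ∀ z, q z ≠ 0 → D (L 5 z) = D (L 4 z) - D (L 0 z) + D (L 1 z) := by
    intro z hz
    have h1 := hD.i15 z hz
    have h2 := f5 z hz
    have h3 := f1 z hz
    simp only [pos] at h1
    linear_combination (norm := module) h1 - h3 + h2
  have hz1 : ZD p X D 1 (-1) (4 * H p D - 2 * h - pp p X D (-1) (-1))
      (6 * H p D - 3 * h - pp p X D 1 1 - pp p X D (-1) (-1)) q
      (L 0) (L 1) (L 2) (L 3) (L 4) (L 5) :=
    { law := hq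
      mc0 := hD.mL 0
      mc1 := hD.mL 1
      mn0 := hD.mL 2
      mn1 := hD.mL 3
      mf0 := hD.mL 4
      mf1 := hD.mL 5
      phic := fun a b => H_map hD.m01 (fun z => X z.1 + a • D z.1 + b • D z.2)
      ic := hD.i01
      iN := hD.i23
      iF := hD.i45
      s0 := hD.i02
      s1 := hD.i13
      t0 := hD.i04
      t1 := hD.i15
      hQ := by
        have := hD.hQ2
        linarith
      hW := by
        have := hD.hW
        linarith }
  have r1 := hF1 Ω W p X D h _ _ Ω' q (L 0) (L 1) (L 2) (L 3) (L 4) (L 5) hp hd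
    (fun t ht => hF t (Finset.mem_union_left _ ht)) hz1
  set ζ := Z3 r with hζ
  have hh : ∀ i t, t ∈ F1 ∪ {0, hu r ζ, hv r ζ} →
      H q (fun z => X (L i z) + t • D (L i z)) ≤ h := by
    intro i t ht
    have e1 := H_map (hD.mL i) (pos X D t)
    have e2 := hF t ht
    have e3 : H q (fun z => X (L i z) + t • D (L i z)) = H q (fun z => pos X D t (L i z)) := rfl
    rw [e3, e1]
    exact e2
  have main := core2 hq (fun z => X (L 0 z)) (fun z => D (L 0 z)) (fun z => D (L 1 z))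
    (fun z => D (L 2 z)) (fun z => D (L 4 z)) r ζ (by linarith) (by linarith) (by linarith)
    (by nlinarith) h
    (H q (fun z => (X (L 2 z) + (r * ζ) • D (L 2 z) + ζ • D (L 3 z),
        (1 - 2 : ℚ) • pos X D 1 (L 0 z) + (2 : ℚ) • pos X D 1 (L 1 z) + (1 : ℚ) • D (L 4 z))))
    (6 * H p D - 3 * h - pp p X D 1 1 - pp p X D (-1) (-1))
    (Z3_sum hr hr') ?_ ?_ ?_ ?_ ?_ ?_ ?_
  · have e3 : H q (fun z => X (L 0 z) + D (L 0 z) - D (L 2 z) + (r * ζ) • D (L 2 z) +
        ζ • (D (L 2 z) + D (L 1 z) - D (L 0 z))) = phi p X D (r * ζ) ζ := by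
      have := H_map hD.m23 (fun z => X z.1 + (r * ζ) • D z.1 + ζ • D z.2)
      rw [phi, ← this]
      refine H_congr_supp hq ?_
      intro z hz
      dsimp only
      rw [f2 z hz, g3 z hz]
    rw [e3] at main
    refine le_trans (mul_le_mul_of_nonneg_left ?_ (by linarith)) r1
    linarith
  · have := Det_im hq (hD.mL 1) hd
    exact Det_congr_supp (fun z _ => rfl) (fun z hz => f1 z hz) this
  · have := Det_im hq (hD.mL 2) hd
    exact Det_congr_supp (fun z _ => rfl) (fun z hz => f2 z hz) this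
  · have := Det_im hq (hD.mL 4) hd
    exact Det_congr_supp (fun z _ => rfl) (fun z hz => f4 z hz) this
  · refine le_trans (le_of_eq ?_) (hh 2 (hu r ζ) (by simp))
    exact H_congr_supp hq fun z hz => by rw [f2 z hz]
  · refine le_trans (le_of_eq ?_) (hh 3 (hv r ζ) (by simp))
    exact H_congr_supp hq fun z hz => by rw [f3 z hz, g3 z hz]
  · refine H_congr_supp hq fun z hz => ?_
    simp only [Prod.mk.injEq, pos]
    rw [f2 z hz, g3 z hz, f1 z hz]
    refine ⟨rfl, ?_⟩
    module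
  · have h1 := hD.hW
    have h2 := H_mono hq (f := fun v => (D (L 0 v), D (L 1 v), D (L 2 v), D (L 4 v)))
      (g := fun z => (D (L 0 z), D (L 1 z), D (L 2 z), D (L 3 z), D (L 4 z), D (L 5 z))) (by
        intro z z' hz hz' e
        simp only [Prod.mk.injEq] at e ⊢
        refine ⟨e.1, e.2.1, e.2.2.1, ?_, e.2.2.2, ?_⟩
        · rw [g3 z hz, g3 z' hz', e.1, e.2.1, e.2.2.1]
        · rw [g5 z hz, g5 z' hz', e.1, e.2.1, e.2.2.2])
    linarith

end Pool.Agent.W904.AK
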