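import Pool.Agent.W904.AK.Sdc
import Pool.Agent.W904.AK.W2
import Pool.Agent.W904.AK.Step2

/-!
# Sums-differences with exponent 1.67108
-/

set_option autoImplicit false

namespace Pool.Agent.W904.AK
open Pool.Agent.W859.AK

theorem chain2 : Good2 2 (1706 / 1000) ∧ Good2 (1706 / 1000) (16752 / 10000) ∧
    Good2 (16752 / 10000) (16716 / 10000) ∧ Good2 (16716 / 10000) (167115 / 100000) ∧
    Good2 (167115 / 100000) (167109 / 100000) ∧ Good2 (167109 / 100000) (167108 / 100000) := by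
  refine ⟨?_, ?_, ?_, ?_, ?_, ?_⟩ <;> · unfold Good2; norm_num

/-- One step. -/
theorem onestep2 (hSTEP : S_STEP2) {b c : ℝ} (hg : Good2 b c) (h : ∃ T w, Oracle b T w) :
    ∃ T w, Oracle c T w := by
  obtain ⟨T, w, hO⟩ := h
  obtain ⟨T', hT'⟩ := hSTEP b T w hO c hg
  obtain ⟨w', hw'⟩ := minimax c T' (by linarith [hg.2.2.1]) hT'
  exact ⟨T', w', hw'⟩

theorem oracle2 : ∃ T w, Oracle (167108 / 100000) T w := by
  have hS : S_STEP2 := STEP2 Pool.Agent.W349.AK.KT
    (W2 Pool.Agent.W131.AK.Z Pool.Agent.W932.AK.WD_exists) Pool.Agent.W349.AK.AVG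
    Pool.Agent.W790.AK.SHIFT
  obtain ⟨g1, g2, g3, g4, g5, g6⟩ := chain2
  exact onestep2 hS g6 (onestep2 hS g5 (onestep2 hS g4 (onestep2 hS g3 (onestep2 hS g2
    (onestep2 hS g1 ⟨_, _, base⟩)))))

/-- `SD (1.67108)`: the exponent of sums-differences is at most `1.67108`. -/
theorem sdc2 : SDc (167108 / 100000) := by
  obtain ⟨T, w, hO⟩ := oracle2
  exact Oracle.sdc (by norm_num) hO

end Pool.Agent.W904.AK
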