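import Pool.Agent.W904.AK.Glue

/-!
# Base case, minimax lemma and the projection form
-/

set_option autoImplicit false
set_option linter.unusedSectionVars false

open Finset
open scoped Classical

namespace Pool.Agent.W904.AK

section Card

variable {Ω : Type*} [Fintype Ω] {α β γ δ : Type*} {p : Ω → ℝ}

/-- Entropy is at most the logarithm of the number of values. -/
theorem H_le_log_card (hp : IsLaw p) (f : Ω → α) (S : Finset α) (hS : ∀ x, p x ≠ 0 → f x ∈ S) :
    H p f ≤ Real.log S.card := by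
  have hne : ∃ x, p x ≠ 0 := by
    by_contra h
    push Not at h
    have := hp.total
    simp [h] at this
  obtain ⟨x₀, hx₀⟩ := hne
  have hN : (0 : ℝ) < S.card := by
    exact_mod_cast Finset.card_pos.2 ⟨_, hS x₀ hx₀⟩
  have e1 : ∀ x, p x * -Real.log (im p f (f x)) ≤
      p x * (Real.log S.card - 1) + p x * (1 / (im p f (f x) * S.card)) := by
    intro x
    by_cases hx : p x = 0
    · simp [hx]
    have h1 := im_pos hp f hx
    have h2 := Real.log_le_sub_one_of_pos (one_div_pos.2 (mul_pos h1 hN))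
    rw [Real.log_div one_ne_zero (mul_pos h1 hN).ne', Real.log_one,
      Real.log_mul h1.ne' hN.ne'] at h2
    have h3 := mul_le_mul_of_nonneg_left h2 (hp.nonneg x)
    nlinarith [h3]
  have e2 : ∑ x, p x * (1 / (im p f (f x) * S.card)) ≤ 1 := by
    have e3 : ∀ x, p x * (1 / (im p f (f x) * S.card)) =
        ∑ a ∈ S, (if f x = a then p x else 0) * (1 / (im p f a * S.card)) := by
      intro x
      by_cases hx : p x = 0
      · simp [hx]
      rw [Finset.sum_eq_single_of_mem (f x) (hS x hx)]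
      · simp
      · intro a _ ha
        rw [if_neg (Ne.symm ha), zero_mul]
    rw [Finset.sum_congr rfl fun x _ => e3 x, Finset.sum_comm]
    have e4 : ∀ a ∈ S, ∑ x, (if f x = a then p x else 0) * (1 / (im p f a * S.card)) ≤
        1 / S.card := by
      intro a _
      rw [← Finset.sum_mul, ← im_eq_sum]
      by_cases h0 : im p f a = 0
      · rw [h0, zero_mul]
        exact (one_div_pos.2 hN).le
      · apply le_of_eq
        field_simp
    refine (Finset.sum_le_sum e4).trans ?_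
    rw [Finset.sum_const, nsmul_eq_mul]
    apply le_of_eq
    field_simp
  have h5 := Finset.sum_le_sum fun x (_ : x ∈ Finset.univ) => e1 x
  rw [Finset.sum_add_distrib, ← Finset.sum_mul, hp.total] at h5
  unfold H
  linarith

/-- The uniform law. -/
noncomputable def unif (Ω : Type*) [Fintype Ω] (_ : Ω) : ℝ := 1 / (Fintype.card Ω : ℝ)

lemma unif_law (Ω : Type*) [Fintype Ω] [Nonempty Ω] : IsLaw (unif Ω) := by
  constructor
  · intro x
    unfold unif
    positivity
  · unfold unif
    rw [Finset.sum_const, Finset.card_univ, nsmul_eq_mul]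
    have : (Fintype.card Ω : ℝ) ≠ 0 := by exact_mod_cast Fintype.card_ne_zero
    field_simp

lemma H_unif (Ω : Type*) [Fintype Ω] [Nonempty Ω] {α : Type*} {f : Ω → α}
    (hf : Function.Injective f) : H (unif Ω) f = Real.log (Fintype.card Ω) := by
  have hc : (Fintype.card Ω : ℝ) ≠ 0 := by exact_mod_cast Fintype.card_ne_zero
  have h1 : ∀ x, im (unif Ω) f (f x) = 1 / (Fintype.card Ω : ℝ) := by
    intro x
    rw [im_eq_sum, Finset.sum_eq_single_of_mem x (Finset.mem_univ x)]
    · simp [unif]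
    · intro y _ hy
      rw [if_neg (fun h => hy (hf h))]
  unfold H
  simp only [h1]
  unfold unif
  rw [Finset.sum_const, Finset.card_univ, nsmul_eq_mul, Real.log_div one_ne_zero hc, Real.log_one]
  field_simp
  ring

end Card

/-- The product law. -/
noncomputable def prodLaw {Ω₁ Ω₂ : Type*} [Fintype Ω₁] [Fintype Ω₂] (p : Ω₁ → ℝ) (q : Ω₂ → ℝ) :
    Ω₁ × Ω₂ → ℝ := glue p q (fun _ => ()) (fun _ => ())

section Prod

variable {Ω₁ Ω₂ : Type*} [Fintype Ω₁] [Fintype Ω₂] {α β γ : Type*} {p : Ω₁ → ℝ} {q : Ω₂ → ℝ}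

lemma im_unit (hp : IsLaw p) (c : Unit) : im p (fun _ => ()) c = 1 := by
  simp [im, hp.total]

lemma prod_ok (hp : IsLaw p) (hq : IsLaw q) :
    ∀ c, im p (fun _ => ()) c = im q (fun _ => ()) c := fun c => by
  rw [im_unit hp, im_unit hq]

lemma prod_law (hp : IsLaw p) (hq : IsLaw q) : IsLaw (prodLaw p q) :=
  glue_law hp hq (prod_ok hp hq)

lemma H_prod (hp : IsLaw p) (hq : IsLaw q) (u : Ω₁ → α) (v : Ω₂ → β) :
    H (prodLaw p q) (fun z => (u z.1, v z.2)) = H p u + H q v := by
  unfold prodLaw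
  rw [H_glue hp hq (prod_ok hp hq) (Det.of_unit p u) (Det.of_unit q v), H_const hp (), sub_zero]

end Prod

/-- The base case `b = 2`. -/
theorem base : S_BASE := by
  refine ⟨fun t _ => by norm_num, by norm_num, ?_⟩
  intro Ω _ W _ _ p X D hp _
  have h1 : H p D ≤ H p (fun x => X x + (0 : ℚ) • D x) + H p (fun x => X x + (1 : ℚ) • D x) := by
    refine subadd hp ?_
    intro x y _ _ h
    have ha := congrArg Prod.fst h
    have hb := congrArg Prod.snd h
    simp only [zero_smul, add_zero, one_smul] at ha hb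
    rw [ha] at hb
    exact add_left_cancel hb
  rw [Finset.sum_insert (by norm_num), Finset.sum_singleton]
  linarith

/-- The weighted form implies the max form. -/
theorem Oracle.maxForm {b : ℝ} {T : Finset ℚ} {w : ℚ → ℝ} (hO : Oracle b T w) :
    MaxForm b T := by
  intro Ω _ W _ _ p X D hp hd
  have h1 := hO.2.2 Ω W p X D hp hd
  by_contra hcon
  push Not at hcon
  have hT : T.Nonempty := by
    rw [Finset.nonempty_iff_ne_empty]
    rintro rfl
    have := hO.2.1
    simp at this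
  have h2 : ∑ t ∈ T, w t * (b * H p (fun x => X x + t • D x)) < ∑ t ∈ T, w t * H p D := by
    have hpos : ∃ t ∈ T, 0 < w t := by
      by_contra hno
      push Not at hno
      have : ∑ t ∈ T, w t ≤ 0 := Finset.sum_nonpos hno
      rw [hO.2.1] at this
      linarith
    obtain ⟨t₀, ht₀, hw₀⟩ := hpos
    refine Finset.sum_lt_sum (fun t ht => ?_) ⟨t₀, ht₀, ?_⟩
    · exact mul_le_mul_of_nonneg_left (hcon t ht).le (hO.1 t ht)
    · exact mul_lt_mul_of_pos_left (hcon t₀ ht₀) hw₀
  rw [← Finset.sum_mul, hO.2.1, one_mul] at h2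
  have h3 : ∑ t ∈ T, w t * (b * H p (fun x => X x + t • D x)) =
      b * ∑ t ∈ T, w t * H p (fun x => X x + t • D x) := by
    rw [Finset.mul_sum]
    refine Finset.sum_congr rfl fun t _ => ?_
    ring
  rw [h3] at h2
  linarith

/-- The max form implies the projection form. -/
theorem proj : S_PROJ := by
  intro c T hc hM
  refine ⟨(T.erase 0).image (fun t => (1 - t) / t), ?_, ?_⟩
  · rw [Finset.mem_image]
    rintro ⟨t, ht, h⟩
    have ht0 : t ≠ 0 := (Finset.mem_erase.1 ht).1
    rw [div_eq_iff ht0] at h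
    linarith
  intro A
  set S : Finset ℚ := (T.erase 0).image (fun t => (1 - t) / t) with hSdef
  set B : Finset ℚ := A.image (fun p : ℤ × ℤ => (p.1 : ℚ) + (-1) * (p.2 : ℚ)) with hB
  set M : ℝ := max ((A.image (fun p : ℤ × ℤ => (p.2 : ℚ))).card : ℝ)
            ((S.sup (fun r : ℚ =>
                (A.image (fun p : ℤ × ℤ => (p.1 : ℚ) + r * (p.2 : ℚ))).card) : ℕ) : ℝ) with hMdef
  rcases A.eq_empty_or_nonempty with hA | hA
  · have hB0 : B.card = 0 := by rw [hB, hA]; simp
    rw [hB0]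
    have : 0 ≤ M := le_max_of_le_left (Nat.cast_nonneg _)
    simp only [Nat.cast_zero]
    positivity
  have hBne : B.Nonempty := hA.image _
  have hrep : ∀ b : B, ∃ a ∈ A, (a.1 : ℚ) + (-1) * (a.2 : ℚ) = b.1 := by
    intro b
    exact Finset.mem_image.1 b.2
  choose rep hrepA hrepB using hrep
  have : Nonempty B := hBne.to_subtype
  have hlaw := unif_law B
  set X : B → ℚ := fun b => ((rep b).2 : ℚ) with hX
  set D : B → ℚ := fun b => b.1 with hD
  have hDinj : Function.Injective D := Subtype.val_injective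
  obtain ⟨t, ht, hle⟩ := hM B ℚ (unif B) X D hlaw
    (fun x y _ _ h => by rw [hDinj h])
  have hH : H (unif B) D = Real.log B.card := by
    rw [H_unif B hDinj, Fintype.card_coe]
  have hM1 : (1 : ℝ) ≤ M := by
    refine le_max_of_le_left ?_
    exact_mod_cast Finset.card_pos.2 (hA.image _)
  have hbound : H (unif B) (fun x => X x + t • D x) ≤ Real.log M := by
    by_cases ht0 : t = 0
    · have h1 := H_le_log_card hlaw (fun x => X x + t • D x)
        (A.image (fun p : ℤ × ℤ => (p.2 : ℚ))) (by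
          intro b _
          rw [Finset.mem_image]
          exact ⟨rep b, hrepA b, by simp [hX, ht0]⟩)
      refine h1.trans (Real.log_le_log ?_ (le_max_left _ _))
      exact_mod_cast Finset.card_pos.2 (hA.image _)
    · set r : ℚ := (1 - t) / t with hr
      have hrS : r ∈ S := Finset.mem_image.2 ⟨t, Finset.mem_erase.2 ⟨ht0, ht⟩, rfl⟩
      have h1 := H_le_log_card hlaw (fun x => X x + t • D x)
        ((A.image (fun p : ℤ × ℤ => (p.1 : ℚ) + r * (p.2 : ℚ))).image (fun z => t * z)) (by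
          intro b _
          rw [Finset.mem_image]
          refine ⟨((rep b).1 : ℚ) + r * ((rep b).2 : ℚ),
            Finset.mem_image.2 ⟨rep b, hrepA b, rfl⟩, ?_⟩
          have hb := hrepB b
          simp only [hX, hD, smul_eq_mul]
          rw [← hb, hr]
          field_simp
          ring)
      refine h1.trans (Real.log_le_log ?_ ?_)
      · exact_mod_cast Finset.card_pos.2 ((hA.image _).image _)
      · refine le_max_of_le_right ?_
        have h2 : ((A.image (fun p : ℤ × ℤ => (p.1 : ℚ) + r * (p.2 : ℚ))).image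
            (fun z => t * z)).card ≤ (A.image (fun p : ℤ × ℤ => (p.1 : ℚ) + r * (p.2 : ℚ))).card :=
          Finset.card_image_le
        have h3 := Finset.le_sup (f := fun r : ℚ =>
          (A.image (fun p : ℤ × ℤ => (p.1 : ℚ) + r * (p.2 : ℚ))).card) hrS
        exact_mod_cast h2.trans h3
  rw [hH] at hle
  have hBpos : (0 : ℝ) < B.card := by exact_mod_cast Finset.card_pos.2 hBne
  have hfin : Real.log B.card ≤ c * Real.log M :=
    hle.trans (mul_le_mul_of_nonneg_left hbound hc.le)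
  have hMpos : 0 < M := by linarith
  rw [← Real.log_rpow hMpos] at hfin
  exact (Real.log_le_log_iff hBpos (Real.rpow_pos_of_pos hMpos c)).1 hfin

/-- The weighted form implies the projection form. -/
theorem Oracle.sdc {c : ℝ} {T : Finset ℚ} {w : ℚ → ℝ} (hc : 0 < c) (hO : Oracle c T w) : SDc c :=
  proj c T hc hO.maxForm

/-- Adding two families. -/
lemma family_add {Ω₁ : Type} [Fintype Ω₁] {W₁ : Type} [AddCommGroup W₁] [Module ℚ W₁]
    {p₁ : Ω₁ → ℝ} {X₁ D₁ : Ω₁ → W₁} (hp₁ : IsLaw p₁) (hd₁ : Det p₁ D₁ X₁)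
    {Ω₂ : Type} [Fintype Ω₂] {W₂ : Type} [AddCommGroup W₂] [Module ℚ W₂]
    {p₂ : Ω₂ → ℝ} {X₂ D₂ : Ω₂ → W₂} (hp₂ : IsLaw p₂) (hd₂ : Det p₂ D₂ X₂) :
    ∃ (Ω : Type) (_ : Fintype Ω) (W : Type) (_ : AddCommGroup W) (_ : Module ℚ W) (p : Ω → ℝ)
      (X D : Ω → W), IsLaw p ∧ Det p D X ∧ H p D = H p₁ D₁ + H p₂ D₂ ∧
      ∀ t : ℚ, H p (fun x => X x + t • D x) =
        H p₁ (fun x => X₁ x + t • D₁ x) + H p₂ (fun x => X₂ x + t • D₂ x) := by
  refine ⟨Ω₁ × Ω₂, inferInstance, W₁ × W₂, inferInstance, inferInstance, prodLaw p₁ p₂,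
    fun z => (X₁ z.1, X₂ z.2), fun z => (D₁ z.1, D₂ z.2), prod_law hp₁ hp₂, ?_,
    H_prod hp₁ hp₂ D₁ D₂, fun t => ?_⟩
  · intro z z' hz hz' h
    obtain ⟨_, h1, h2⟩ := glue_supp hz
    obtain ⟨_, h1', h2'⟩ := glue_supp hz'
    exact Prod.ext (hd₁ _ _ h1 h1' (congrArg Prod.fst h)) (hd₂ _ _ h2 h2' (congrArg Prod.snd h))
  · exact H_prod hp₁ hp₂ (fun x => X₁ x + t • D₁ x) (fun x => X₂ x + t • D₂ x)

/-- Minimax lemma: the max form implies the weighted form. -/
theorem minimax : S_MINIMAX := by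
  intro c T hc hM
  -- the set of achieved vectors
  set Z : Set (T → ℝ) := {z | ∃ (Ω : Type) (_ : Fintype Ω) (W : Type) (_ : AddCommGroup W)
    (_ : Module ℚ W) (p : Ω → ℝ) (X D : Ω → W), IsLaw p ∧ Det p D X ∧
      z = fun t : T => H p D / c - H p (fun x => X x + (t : ℚ) • D x)} with hZ
  have hZadd : ∀ z₁ ∈ Z, ∀ z₂ ∈ Z, z₁ + z₂ ∈ Z := by
    rintro z₁ ⟨Ω₁, i₁, W₁, j₁, k₁, p₁, X₁, D₁, hp₁, hd₁, rfl⟩ z₂
      ⟨Ω₂, i₂, W₂, j₂, k₂, p₂, X₂, D₂, hp₂, hd₂, rfl⟩
    obtain ⟨Ω, i, W, j, k, p, X, D, hp, hd, h1, h2⟩ := family_add hp₁ hd₁ hp₂ hd₂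
    refine ⟨Ω, i, W, j, k, p, X, D, hp, hd, ?_⟩
    funext t
    simp only [Pi.add_apply]
    rw [h1, h2]
    ring
  have hZ0 : (0 : T → ℝ) ∈ Z := by
    refine ⟨Unit, inferInstance, ℚ, inferInstance, inferInstance, unif Unit, fun _ => 0,
      fun _ => 0, unif_law Unit, fun _ _ _ _ _ => rfl, ?_⟩
    funext t
    rw [H_const (unif_law Unit), H_const (unif_law Unit)]
    simp
  have hZsmul : ∀ (n : ℕ) (z : T → ℝ), z ∈ Z → (n : ℝ) • z ∈ Z := by
    intro n z hz
    induction n with
    | zero => simpa using hZ0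
    | succ n ih =>
      have : ((n + 1 : ℕ) : ℝ) • z = (n : ℝ) • z + z := by
        rw [Nat.cast_add, Nat.cast_one, add_smul, one_smul]
      rw [this]
      exact hZadd _ ih _ hz
  have hZsum : ∀ {ι : Type} (s : Finset ι) (n : ι → ℕ) (z : ι → T → ℝ), (∀ i, z i ∈ Z) →
      ∑ i ∈ s, (n i : ℝ) • z i ∈ Z := by
    intro ι s n z hz
    induction s using Finset.induction_on with
    | empty => simpa using hZ0
    | insert a s ha ih =>
      rw [Finset.sum_insert ha]
      exact hZadd _ (hZsmul _ _ (hz a)) _ ih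
  have hZneg : ∀ z ∈ Z, ∃ t, z t ≤ 0 := by
    rintro z ⟨Ω, i, W, j, k, p, X, D, hp, hd, rfl⟩
    obtain ⟨t, ht, h⟩ := hM Ω W p X D hp hd
    refine ⟨⟨t, ht⟩, ?_⟩
    dsimp only
    rw [sub_nonpos, div_le_iff₀ hc, mul_comm]
    exact h
  obtain ⟨t₀, ht₀⟩ : T.Nonempty := by
    obtain ⟨t, _⟩ := hZneg 0 hZ0
    exact ⟨t.1, t.2⟩
  -- the open orthant
  set O : Set (T → ℝ) := {z | ∀ t, 0 < z t} with hO
  have hOc : Convex ℝ O := by
    intro x hx y hy a b ha hb hab t
    simp only [Pi.add_apply, Pi.smul_apply, smul_eq_mul]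
    rcases ha.eq_or_lt with h | h
    · have : b = 1 := by linarith
      rw [← h, this]; simpa using hy t
    · exact add_pos_of_pos_of_nonneg (mul_pos h (hx t)) (mul_nonneg hb (hy t).le)
  have hOo : IsOpen O := by
    have : O = ⋂ t : T, {z | 0 < z t} := by
      ext z
      simp [hO]
    rw [this]
    exact isOpen_iInter_of_finite fun t => isOpen_lt continuous_const (continuous_apply t)
  have hdisj : Disjoint O (convexHull ℝ Z) := by
    rw [Set.disjoint_left]
    intro z hzO hzZ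
    obtain ⟨ι, _, w, y, hw0, hw1, hy, rfl⟩ := mem_convexHull_iff_exists_fintype.1 hzZ
    -- bound
    set K : T → ℝ := fun t => ∑ i, |y i t| with hK
    have hKn : ∀ t, 0 ≤ K t := fun t => Finset.sum_nonneg fun i _ => abs_nonneg _
    obtain ⟨N, hN⟩ : ∃ N : ℕ, ∀ t : T, K t < N * (∑ i, w i • y i) t := by
      have h1 : ∀ t : T, ∃ n : ℕ, K t / (∑ i, w i • y i) t < n := fun t => exists_nat_gt _
      choose n hn using h1
      refine ⟨Finset.univ.sup n, fun t => ?_⟩
      have h2 := hn t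
      rw [div_lt_iff₀ (hzO t)] at h2
      refine h2.trans_le (mul_le_mul_of_nonneg_right ?_ (hzO t).le)
      exact_mod_cast Finset.le_sup (f := n) (Finset.mem_univ t)
    have hmem := hZsum Finset.univ (fun i => ⌊(N : ℝ) * w i⌋₊) y hy
    obtain ⟨t, ht⟩ := hZneg _ hmem
    have h3 : (N : ℝ) * (∑ i, w i • y i) t - K t ≤ (∑ i, ((⌊(N : ℝ) * w i⌋₊ : ℕ) : ℝ) • y i) t := by
      simp only [Finset.sum_apply, Pi.smul_apply, smul_eq_mul, hK]
      rw [Finset.mul_sum, ← Finset.sum_sub_distrib]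
      refine Finset.sum_le_sum fun i _ => ?_
      have h4 : ((⌊(N : ℝ) * w i⌋₊ : ℕ) : ℝ) ≤ N * w i :=
        Nat.floor_le (mul_nonneg (Nat.cast_nonneg _) (hw0 i))
      have h5 : (N : ℝ) * w i < (⌊(N : ℝ) * w i⌋₊ : ℕ) + 1 := Nat.lt_floor_add_one _
      have h6 : ((N : ℝ) * w i - (⌊(N : ℝ) * w i⌋₊ : ℕ)) * y i t ≤ |y i t| := by
        rcases le_or_gt 0 (y i t) with h | h
        · rw [abs_of_nonneg h]
          nlinarith
        · exact (mul_nonpos_of_nonneg_of_nonpos (by linarith) h.le).trans (abs_nonneg _)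
      linarith
    have := hN t
    linarith
  obtain ⟨f, u, hf1, hf2⟩ := geometric_hahn_banach_open hOc hOo (convex_convexHull ℝ Z) hdisj
  have hfZ : ∀ z ∈ Z, 0 ≤ f z := by
    intro z hz
    by_contra hneg
    push Not at hneg
    obtain ⟨n, hn⟩ := exists_nat_gt (u / f z)
    have h1 := hf2 _ (subset_convexHull ℝ Z (hZsmul n z hz))
    rw [map_smul, smul_eq_mul] at h1
    rw [div_lt_iff_of_neg hneg] at hn
    linarith
  have hu : u ≤ 0 := by
    have := hf2 0 (subset_convexHull ℝ Z hZ0)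
    simpa using this
  have hfO : ∀ z ∈ O, f z < 0 := fun z hz => (hf1 z hz).trans_le hu
  set e : T → (T → ℝ) := fun t => Pi.single t 1 with he
  have hfe : ∀ t, f (e t) ≤ 0 := by
    intro t
    by_contra hpos
    push Not at hpos
    have h1 : f (fun _ => (1 : ℝ)) < 0 := hfO _ (fun _ => one_pos)
    -- choose a small multiple
    set s : ℝ := f (e t) / (2 * -f (fun _ => (1 : ℝ))) with hs
    have hs0 : 0 < s := div_pos hpos (by linarith)
    have h2 : (e t + s • (fun _ => (1 : ℝ))) ∈ O := by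
      intro t'
      simp only [Pi.add_apply, Pi.smul_apply, smul_eq_mul, mul_one, he]
      have : 0 ≤ (Pi.single t (1 : ℝ) : T → ℝ) t' := by
        by_cases h : t' = t
        · rw [h]; simp
        · rw [Pi.single_eq_of_ne h]
      linarith
    have h3 := hfO _ h2
    rw [map_add, map_smul, smul_eq_mul] at h3
    have h4 : s * f (fun _ => (1 : ℝ)) = - f (e t) / 2 := by
      rw [hs]
      have : f (fun _ => (1 : ℝ)) ≠ 0 := h1.ne
      field_simp
    rw [h4] at h3
    linarith
  have hfsum : ∀ z : T → ℝ, f z = ∑ t, z t * f (e t) := by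
    intro z
    have : z = ∑ t, z t • e t := by
      funext t'
      simp only [Finset.sum_apply, Pi.smul_apply, smul_eq_mul, he]
      rw [Finset.sum_eq_single_of_mem t' (Finset.mem_univ t')]
      · simp
      · intro t _ ht
        rw [Pi.single_eq_of_ne (Ne.symm ht), mul_zero]
    conv_lhs => rw [this]
    rw [map_sum]
    refine Finset.sum_congr rfl fun t _ => ?_
    rw [map_smul, smul_eq_mul]
  set L : ℝ := ∑ t : T, -f (e t) with hL
  have hLpos : 0 < L := by
    have h1 : f (fun _ => (1 : ℝ)) < 0 := hfO _ (fun _ => one_pos)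
    rw [hfsum] at h1
    simp only [one_mul] at h1
    rw [hL, Finset.sum_neg_distrib]
    linarith
  refine ⟨fun t => if h : t ∈ T then -f (e ⟨t, h⟩) / L else 0, ?_, ?_, ?_⟩
  · intro t ht
    dsimp only
    rw [dif_pos ht]
    exact div_nonneg (neg_nonneg.2 (hfe _)) hLpos.le
  · rw [← Finset.sum_coe_sort T]
    have : ∀ t : T, (if h : (t : ℚ) ∈ T then -f (e ⟨t, h⟩) / L else 0) = -f (e t) / L := by
      intro t
      rw [dif_pos t.2]
    rw [Finset.sum_congr rfl fun t _ => this t, ← Finset.sum_div, ← hL, div_self hLpos.ne']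
  · intro Ω _ W _ _ p X D hp hd
    have h1 := hfZ _ ⟨Ω, inferInstance, W, inferInstance, inferInstance, p, X, D, hp, hd, rfl⟩
    rw [hfsum] at h1
    rw [← Finset.sum_coe_sort T]
    have h2 : ∀ t : T, (if h : (t : ℚ) ∈ T then -f (e ⟨t, h⟩) / L else 0) *
        H p (fun x => X x + (t : ℚ) • D x) =
        (-f (e t) * H p (fun x => X x + (t : ℚ) • D x)) / L := by
      intro t
      rw [dif_pos t.2]
      ring
    rw [Finset.sum_congr rfl fun t _ => h2 t, ← Finset.sum_div]
    have h3 : ∑ t : T, (H p D / c - H p (fun x => X x + (t : ℚ) • D x)) * f (e t) =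
        -(H p D / c * L) + ∑ t : T, -f (e t) * H p (fun x => X x + (t : ℚ) • D x) := by
      rw [hL, Finset.mul_sum, ← Finset.sum_neg_distrib, ← Finset.sum_add_distrib]
      refine Finset.sum_congr rfl fun t _ => ?_
      ring
    rw [h3] at h1
    set R : ℝ := ∑ t : T, -f (e t) * H p (fun x => X x + (t : ℚ) • D x) with hR
    have h4 : H p D / c * L ≤ R := by linarith
    have h5 : H p D / c ≤ R / L := by
      rw [le_div_iff₀ hLpos]; exact h4
    rw [div_le_iff₀ hc] at h5
    linarith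

end Pool.Agent.W904.AK
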