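import Pool.Agent.W904.AK.Ent

/-!
# Sums-differences: weighted oracle and max form
-/

set_option autoImplicit false

open Finset

namespace Pool.Agent.W904.AK

/-- The weighted sums-differences inequality with constant `b`, heights `T`, weights `w`: a
random line `X + t D` whose direction `D` determines it. -/
def Oracle (b : ℝ) (T : Finset ℚ) (w : ℚ → ℝ) : Prop :=
  (∀ t ∈ T, 0 ≤ w t) ∧ ∑ t ∈ T, w t = 1 ∧
  ∀ (Ω : Type) [Fintype Ω] (W : Type) [AddCommGroup W] [Module ℚ W] (p : Ω → ℝ) (X D : Ω → W),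
    IsLaw p → Det p D X → H p D ≤ b * ∑ t ∈ T, w t * H p (fun x => X x + t • D x)

/-- The sums-differences inequality in max form. -/
def MaxForm (c : ℝ) (T : Finset ℚ) : Prop :=
  ∀ (Ω : Type) [Fintype Ω] (W : Type) [AddCommGroup W] [Module ℚ W] (p : Ω → ℝ) (X D : Ω → W),
    IsLaw p → Det p D X → ∃ t ∈ T, H p D ≤ c * H p (fun x => X x + t • D x)

/-- Minimax lemma (to be proved). -/
def S_MINIMAX : Prop := ∀ (c : ℝ) (T : Finset ℚ), 0 < c → MaxForm c T → ∃ w, Oracle c T w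

/-- Base case (to be proved). -/
def S_BASE : Prop := Oracle 2 {0, 1} (fun _ => 1 / 2)

/-- The shape of the frozen statement `S07345` of `MP_169869_co`, with `1 + ε` replaced by `c`. -/
def SDc (c : ℝ) : Prop :=
  ∃ S : Finset ℚ, (-1 : ℚ) ∉ S ∧
    ∀ A : Finset (ℤ × ℤ),
      ((A.image (fun p : ℤ × ℤ => (p.1 : ℚ) + (-1) * (p.2 : ℚ))).card : ℝ) ≤
        (max ((A.image (fun p : ℤ × ℤ => (p.2 : ℚ))).card : ℝ)
            ((S.sup (fun r : ℚ =>
                (A.image (fun p : ℤ × ℤ => (p.1 : ℚ) + r * (p.2 : ℚ))).card) : ℕ) : ℝ))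
          ^ c

/-- Projection form (to be proved). -/
def S_PROJ : Prop := ∀ (c : ℝ) (T : Finset ℚ), 0 < c → MaxForm c T → SDc c

end Pool.Agent.W904.AK
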