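import Pool.Agent.W904.AK.Defs

/-!
# Conditional laws, chain rule, conditional oracle
-/

set_option autoImplicit false
set_option linter.unusedSectionVars false

open Finset
open scoped Classical

namespace Pool.Agent.W904.AK

section Cond

variable {Ω : Type*} [Fintype Ω] {α β γ δ : Type*} {p : Ω → ℝ}

lemma im_eq_sum (p : Ω → ℝ) (f : Ω → α) (a : α) : im p f a = ∑ x, if f x = a then p x else 0 :=
  rfl

/-- The conditional law given `C = c`. -/
noncomputable def cd (p : Ω → ℝ) (C : Ω → γ) (c : γ) (x : Ω) : ℝ :=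
  if C x = c then p x / im p C c else 0

lemma cd_law (hp : IsLaw p) (C : Ω → γ) {c : γ} (hc : im p C c ≠ 0) : IsLaw (cd p C c) := by
  constructor
  · intro x
    unfold cd
    split_ifs
    exacts [div_nonneg (hp.nonneg x) (im_nonneg hp C c), le_rfl]
  · have : ∀ x, cd p C c x = (if C x = c then p x else 0) / im p C c := by
      intro x
      unfold cd
      split_ifs <;> simp
    rw [Finset.sum_congr rfl fun x _ => this x, ← Finset.sum_div, ← im_eq_sum, div_self hc]

lemma im_cd (p : Ω → ℝ) (C : Ω → γ) (f : Ω → α) (c : γ) (a : α) :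
    im (cd p C c) f a = im p (fun x => (C x, f x)) (c, a) / im p C c := by
  rw [im_eq_sum, im_eq_sum, Finset.sum_div]
  refine Finset.sum_congr rfl fun x _ => ?_
  unfold cd
  by_cases h1 : C x = c <;> by_cases h2 : f x = a <;> simp [h1, h2]

/-- The chain rule. -/
theorem chain (hp : IsLaw p) (C : Ω → γ) (f : Ω → α) :
    H p (fun x => (C x, f x)) - H p C = ∑ x, p x * H (cd p C (C x)) f := by
  have e1 : ∀ x, p x * H (cd p C (C x)) f = ∑ y, (if C x = C y then p x else 0) *
      (p y / im p C (C y) * -Real.log (im p (fun x => (C x, f x)) (C y, f y) / im p C (C y))) := by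
    intro x
    unfold H
    rw [Finset.mul_sum]
    refine Finset.sum_congr rfl fun y _ => ?_
    rw [im_cd]
    unfold cd
    by_cases h : C y = C x
    · rw [if_pos h, if_pos h.symm, h]
    · rw [if_neg h, if_neg (fun h' => h h'.symm)]
      simp
  rw [Finset.sum_congr rfl fun x _ => e1 x, Finset.sum_comm]
  unfold H
  rw [← Finset.sum_sub_distrib]
  refine Finset.sum_congr rfl fun y _ => ?_
  rw [← Finset.sum_mul, ← im_eq_sum]
  by_cases hy : p y = 0
  · simp [hy]
  have h1 := im_pos hp C hy
  have h2 := im_pos hp (fun x => (C x, f x)) hy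
  rw [Real.log_div h2.ne' h1.ne']
  field_simp
  ring

lemma Det.cd {C : Ω → γ} {f : Ω → α} {g : Ω → β} (h : Det p (fun x => (C x, f x)) g) (c : γ) :
    Det (cd p C c) f g := by
  intro x y hx hy hf
  unfold AK.cd at hx hy
  have h1 : C x = c := by
    by_contra h'
    exact hx (if_neg h')
  have h2 : C y = c := by
    by_contra h'
    exact hy (if_neg h')
  rw [if_pos h1] at hx
  rw [if_pos h2] at hy
  exact h x y (fun h' => hx (by rw [h']; simp)) (fun h' => hy (by rw [h']; simp))
    (Prod.ext (by dsimp only; rw [h1, h2]) hf)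

end Cond

/-- The conditional oracle. -/
theorem Oracle.cond {b : ℝ} {T : Finset ℚ} {w : ℚ → ℝ} (hO : Oracle b T w) {Ω : Type} [Fintype Ω]
    {W : Type} [AddCommGroup W] [Module ℚ W] {γ : Type*} {p : Ω → ℝ} (hp : IsLaw p) (C : Ω → γ)
    (X D : Ω → W) (hdet : Det p (fun x => (C x, D x)) X) :
    H p (fun x => (C x, D x)) - H p C ≤
      b * ∑ t ∈ T, w t * (H p (fun x => (C x, X x + t • D x)) - H p C) := by
  have e1 : b * ∑ t ∈ T, w t * (H p (fun x => (C x, X x + t • D x)) - H p C) =
      ∑ x, p x * (b * ∑ t ∈ T, w t * H (cd p C (C x)) (fun x => X x + t • D x)) := by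
    simp only [chain hp]
    simp only [Finset.mul_sum]
    rw [Finset.sum_comm]
    refine Finset.sum_congr rfl fun x _ => ?_
    refine Finset.sum_congr rfl fun t _ => ?_
    ring
  rw [e1, chain hp]
  refine Finset.sum_le_sum fun x _ => ?_
  by_cases hx : p x = 0
  · simp [hx]
  exact mul_le_mul_of_nonneg_left
    (hO.2.2 Ω W (cd p C (C x)) X D (cd_law hp C (im_pos hp C hx).ne') (hdet.cd (C x)))
    (hp.nonneg x)

/-- The conditional oracle with the total determined by `(C, D)`. -/
theorem Oracle.cond' {b : ℝ} {T : Finset ℚ} {w : ℚ → ℝ} (hO : Oracle b T w) {Ω : Type} [Fintype Ω]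
    {W : Type} [AddCommGroup W] [Module ℚ W] {γ δ : Type*} {p : Ω → ℝ} (hp : IsLaw p) {C : Ω → γ}
    {X D : Ω → W} {A : Ω → δ} (hdet : Det p (fun x => (C x, D x)) X)
    (hA : Det p (fun x => (C x, D x)) A) :
    H p A - H p C ≤ b * ∑ t ∈ T, w t * (H p (fun x => (C x, X x + t • D x)) - H p C) := by
  have h1 := hO.cond hp C X D hdet
  have h2 := H_mono hp hA
  linarith

end Pool.Agent.W904.AK
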