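import Mathlib

/-!
# Entropy of finite random variables

`p : Ω → ℝ` is a law on a finite type, `H p f` is the Shannon entropy of `f` under `p`.
-/

set_option autoImplicit false
set_option linter.unusedSectionVars false

open Finset
open scoped Classical

namespace Pool.Agent.W904.AK

/-- `p` is a probability law on `Ω`. -/
structure IsLaw {Ω : Type*} [Fintype Ω] (p : Ω → ℝ) : Prop where
  nonneg : ∀ x, 0 ≤ p x
  total : ∑ x, p x = 1

section Basic

variable {Ω : Type*} [Fintype Ω] {α β γ δ : Type*}

/-- The image law of `f`. -/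
noncomputable def im (p : Ω → ℝ) (f : Ω → α) (a : α) : ℝ := ∑ x, if f x = a then p x else 0

/-- The Shannon entropy of `f` under `p`. -/
noncomputable def H (p : Ω → ℝ) (f : Ω → α) : ℝ := ∑ x, p x * -Real.log (im p f (f x))

/-- `g` is determined by `f` on the support of `p`. -/
def Det (p : Ω → ℝ) (f : Ω → α) (g : Ω → β) : Prop :=
  ∀ x y, p x ≠ 0 → p y ≠ 0 → f x = f y → g x = g y

variable {p : Ω → ℝ}

lemma Det.refl (p : Ω → ℝ) (f : Ω → α) : Det p f f := fun _ _ _ _ h => h

lemma Det.trans {f : Ω → α} {g : Ω → β} {h : Ω → γ} (h1 : Det p f g) (h2 : Det p g h) :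
    Det p f h := fun x y hx hy hf => h2 x y hx hy (h1 x y hx hy hf)

lemma Det.pair {f : Ω → α} {g : Ω → β} {h : Ω → γ} (h1 : Det p f g) (h2 : Det p f h) :
    Det p f (fun x => (g x, h x)) := fun x y hx hy hf =>
  Prod.ext (h1 x y hx hy hf) (h2 x y hx hy hf)

lemma Det.comp (p : Ω → ℝ) (f : Ω → α) (φ : α → β) : Det p f (fun x => φ (f x)) :=
  fun _ _ _ _ h => congrArg φ h

lemma Det.fst (p : Ω → ℝ) (f : Ω → α) (g : Ω → β) : Det p (fun x => (f x, g x)) f :=
  fun _ _ _ _ h => congrArg Prod.fst h

lemma Det.snd (p : Ω → ℝ) (f : Ω → α) (g : Ω → β) : Det p (fun x => (f x, g x)) g :=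
  fun _ _ _ _ h => congrArg Prod.snd h

lemma Det.of_unit (p : Ω → ℝ) (f : Ω → α) : Det p f (fun _ => ()) := fun _ _ _ _ _ => rfl

lemma im_nonneg (hp : IsLaw p) (f : Ω → α) (a : α) : 0 ≤ im p f a :=
  Finset.sum_nonneg fun x _ => by split_ifs; exacts [hp.nonneg x, le_rfl]

lemma im_le_one (hp : IsLaw p) (f : Ω → α) (a : α) : im p f a ≤ 1 := by
  rw [← hp.total]
  refine Finset.sum_le_sum fun x _ => ?_
  split_ifs
  exacts [le_rfl, hp.nonneg x]

lemma le_im (hp : IsLaw p) (f : Ω → α) (x : Ω) : p x ≤ im p f (f x) := by
  have := Finset.single_le_sum (f := fun y => if f y = f x then p y else 0)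
    (fun y _ => by split_ifs; exacts [hp.nonneg y, le_rfl]) (Finset.mem_univ x)
  simpa [im] using this

lemma im_pos (hp : IsLaw p) (f : Ω → α) {x : Ω} (hx : p x ≠ 0) : 0 < im p f (f x) :=
  lt_of_lt_of_le (lt_of_le_of_ne (hp.nonneg x) (Ne.symm hx)) (le_im hp f x)

lemma im_le_im_of_det (hp : IsLaw p) {f : Ω → α} {g : Ω → β} (h : Det p f g) {x : Ω}
    (hx : p x ≠ 0) : im p f (f x) ≤ im p g (g x) := by
  refine Finset.sum_le_sum fun y _ => ?_
  by_cases hy : p y = 0
  · simp [hy]
  · split_ifs with h1 h2 h2
    · exact le_rfl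
    · exact absurd (h y x hy hx h1) h2
    · exact hp.nonneg y
    · exact le_rfl

lemma H_nonneg (hp : IsLaw p) (f : Ω → α) : 0 ≤ H p f :=
  Finset.sum_nonneg fun x _ => mul_nonneg (hp.nonneg x)
    (neg_nonneg.2 (Real.log_nonpos (im_nonneg hp f _) (im_le_one hp f _)))

lemma H_mono (hp : IsLaw p) {f : Ω → α} {g : Ω → β} (h : Det p f g) : H p g ≤ H p f := by
  refine Finset.sum_le_sum fun x _ => ?_
  by_cases hx : p x = 0
  · simp [hx]
  · refine mul_le_mul_of_nonneg_left ?_ (hp.nonneg x)
    exact neg_le_neg (Real.log_le_log (im_pos hp f hx) (im_le_im_of_det hp h hx))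

lemma H_congr (hp : IsLaw p) {f : Ω → α} {g : Ω → β} (h : Det p f g) (h' : Det p g f) :
    H p f = H p g := le_antisymm (H_mono hp h') (H_mono hp h)

lemma H_const (hp : IsLaw p) (c : α) : H p (fun _ => c) = 0 := by
  have : im p (fun _ => c) c = 1 := by simp [im, hp.total]
  simp [H, this]

/-- Submodularity. -/
theorem submod (hp : IsLaw p) {f : Ω → α} {g : Ω → β} {h : Ω → γ} (hf : Det p f h)
    (hg : Det p g h) : H p (fun x => (f x, g x)) + H p h ≤ H p f + H p g := by
  set k : Ω → α × β := fun x => (f x, g x) with hk
  have key : ∑ x, p x * (im p f (f x) * im p g (g x) / (im p k (k x) * im p h (h x))) ≤ 1 := by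
    have e1 : ∀ x, p x * (im p f (f x) * im p g (g x) / (im p k (k x) * im p h (h x))) =
        ∑ y, ∑ z, p y * p z * ((if f y = f x then if g z = g x then p x else 0 else 0) /
          (im p k (k x) * im p h (h x))) := by
      intro x
      have e2 : im p f (f x) * im p g (g x) = ∑ y, ∑ z,
          (if f y = f x then p y else 0) * (if g z = g x then p z else 0) := by
        rw [im, im, Finset.sum_mul_sum]
      rw [e2, Finset.sum_div, Finset.mul_sum]
      refine Finset.sum_congr rfl fun y _ => ?_
      rw [Finset.sum_div, Finset.mul_sum]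
      refine Finset.sum_congr rfl fun z _ => ?_
      split_ifs <;> ring
    rw [Finset.sum_congr rfl fun x _ => e1 x, Finset.sum_comm]
    have e3 : ∀ y, ∑ x, ∑ z, p y * p z * ((if f y = f x then if g z = g x then p x else 0 else 0) /
          (im p k (k x) * im p h (h x))) ≤ p y := by
      intro y
      by_cases hy : p y = 0
      · simp [hy]
      rw [Finset.sum_comm]
      have e4 : ∀ z, ∑ x, p y * p z * ((if f y = f x then if g z = g x then p x else 0 else 0) /
          (im p k (k x) * im p h (h x))) ≤ p y * ((if h z = h y then p z else 0) /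
            im p h (h y)) := by
        intro z
        by_cases hz : p z = 0
        · simp [hz]
        by_cases hex : ∃ x, p x ≠ 0 ∧ f y = f x ∧ g z = g x
        · obtain ⟨x₀, hx₀, hfx, hgx⟩ := hex
          have h1 : h z = h y := by
            rw [hg z x₀ hz hx₀ hgx, hf y x₀ hy hx₀ hfx]
          have h2 : ∀ x, p y * p z * ((if f y = f x then if g z = g x then p x else 0 else 0) /
              (im p k (k x) * im p h (h x))) = p y * p z / (im p k (k x₀) * im p h (h y)) *
                (if k x = k x₀ then p x else 0) := by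
            intro x
            by_cases hx : p x = 0
            · simp [hx]
            by_cases hkx : k x = k x₀
            · have ha : f x = f x₀ := congrArg Prod.fst hkx
              have hb : g x = g x₀ := congrArg Prod.snd hkx
              rw [if_pos hkx, if_pos (by rw [ha, hfx]), if_pos (by rw [hb, hgx]), hkx,
                hf x y hx hy (by rw [ha, hfx])]
              ring
            · rw [if_neg hkx]
              have : ¬ (f y = f x ∧ g z = g x) := by
                rintro ⟨ha, hb⟩
                exact hkx (Prod.ext (by simp only [hk]; rw [← ha, hfx])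
                  (by simp only [hk]; rw [← hb, hgx]))
              by_cases ha : f y = f x
              · rw [if_pos ha, if_neg (fun hb => this ⟨ha, hb⟩)]; simp
              · rw [if_neg ha]; simp
          rw [Finset.sum_congr rfl fun x _ => h2 x, ← Finset.mul_sum, if_pos h1]
          have h3 : (∑ x, if k x = k x₀ then p x else 0) = im p k (k x₀) := by
            unfold im
            refine Finset.sum_congr rfl fun x _ => ?_
            by_cases hh : k x = k x₀ <;> simp [hh]
          rw [h3]
          have h4 := (im_pos hp k hx₀).ne'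
          have h5 := (im_pos hp h hy).ne'
          apply le_of_eq
          field_simp
        · have h2 : ∀ x, p y * p z * ((if f y = f x then if g z = g x then p x else 0 else 0) /
              (im p k (k x) * im p h (h x))) = 0 := by
            intro x
            by_cases hx : p x = 0
            · simp [hx]
            by_cases ha : f y = f x
            · rw [if_pos ha, if_neg (fun hb => hex ⟨x, hx, ha, hb⟩)]; simp
            · rw [if_neg ha]; simp
          rw [Finset.sum_congr rfl fun x _ => h2 x]
          simp only [Finset.sum_const_zero]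
          refine mul_nonneg (hp.nonneg y) (div_nonneg ?_ (im_nonneg hp h _))
          split_ifs
          exacts [hp.nonneg z, le_rfl]
      refine (Finset.sum_le_sum fun z _ => e4 z).trans (le_of_eq ?_)
      rw [← Finset.mul_sum, ← Finset.sum_div]
      have h3 : (∑ z, if h z = h y then p z else 0) = im p h (h y) := rfl
      rw [h3, div_self (im_pos hp h hy).ne', mul_one]
    exact (Finset.sum_le_sum fun y _ => e3 y).trans (le_of_eq hp.total)
  have main : ∀ x, p x * (-Real.log (im p k (k x)) + -Real.log (im p h (h x)) -
      (-Real.log (im p f (f x)) + -Real.log (im p g (g x)))) ≤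
      p x * (im p f (f x) * im p g (g x) / (im p k (k x) * im p h (h x))) - p x := by
    intro x
    by_cases hx : p x = 0
    · simp [hx]
    have h1 := im_pos hp f hx
    have h2 := im_pos hp g hx
    have h3 := im_pos hp k hx
    have h4 := im_pos hp h hx
    have h5 : Real.log (im p f (f x) * im p g (g x) / (im p k (k x) * im p h (h x))) =
        -Real.log (im p k (k x)) + -Real.log (im p h (h x)) -
      (-Real.log (im p f (f x)) + -Real.log (im p g (g x))) := by
      rw [Real.log_div (mul_pos h1 h2).ne' (mul_pos h3 h4).ne', Real.log_mul h1.ne' h2.ne',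
        Real.log_mul h3.ne' h4.ne']
      ring
    rw [← h5]
    have h6 := Real.log_le_sub_one_of_pos (div_pos (mul_pos h1 h2) (mul_pos h3 h4))
    have := mul_le_mul_of_nonneg_left h6 (hp.nonneg x)
    linarith
  have hsum := Finset.sum_le_sum fun x (_ : x ∈ Finset.univ) => main x
  rw [Finset.sum_sub_distrib, hp.total] at hsum
  have e5 : ∑ x, p x * (-Real.log (im p k (k x)) + -Real.log (im p h (h x)) -
      (-Real.log (im p f (f x)) + -Real.log (im p g (g x)))) =
      H p k + H p h - (H p f + H p g) := by
    simp only [H]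
    rw [← Finset.sum_add_distrib, ← Finset.sum_add_distrib, ← Finset.sum_sub_distrib]
    refine Finset.sum_congr rfl fun x _ => ?_
    ring
  rw [e5] at hsum
  linarith

/-- Submodularity in the form used in all proofs. -/
theorem submod' (hp : IsLaw p) {f : Ω → α} {g : Ω → β} {h : Ω → γ} {k : Ω → δ}
    (hf : Det p f h) (hg : Det p g h) (hk : Det p (fun x => (f x, g x)) k) :
    H p k + H p h ≤ H p f + H p g := by
  have h1 := submod hp hf hg
  have h2 := H_mono hp hk
  linarith

theorem subadd (hp : IsLaw p) {f : Ω → α} {g : Ω → β} {k : Ω → δ}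
    (hk : Det p (fun x => (f x, g x)) k) : H p k ≤ H p f + H p g := by
  have h1 := submod' hp (Det.of_unit p f) (Det.of_unit p g) hk
  rw [H_const hp ()] at h1
  linarith

end Basic

end Pool.Agent.W904.AK
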