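import Pool.Agent.W904.AK.Cond

/-!
# Transport of entropies and conditionally independent gluing
-/

set_option autoImplicit false
set_option linter.unusedSectionVars false

open Finset
open scoped Classical

namespace Pool.Agent.W904.AK

section Map

variable {Ω Ω' : Type*} [Fintype Ω] [Fintype Ω'] {α β γ δ : Type*} {p : Ω → ℝ}

lemma im_comp (p : Ω → ℝ) (φ : Ω → Ω') (u : Ω' → α) (a : α) :
    im (im p φ) u a = im p (fun x => u (φ x)) a := by
  rw [im_eq_sum, im_eq_sum]
  have : ∀ y, (if u y = a then im p φ y else 0) =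
      ∑ x, if φ x = y then (if u (φ x) = a then p x else 0) else 0 := by
    intro y
    rw [im_eq_sum]
    by_cases h : u y = a
    · rw [if_pos h]
      refine Finset.sum_congr rfl fun x _ => ?_
      by_cases h2 : φ x = y
      · rw [if_pos h2, if_pos h2, h2, if_pos h]
      · rw [if_neg h2, if_neg h2]
    · rw [if_neg h]
      symm
      refine Finset.sum_eq_zero fun x _ => ?_
      by_cases h2 : φ x = y
      · rw [if_pos h2, h2, if_neg h]
      · rw [if_neg h2]
  rw [Finset.sum_congr rfl fun y _ => this y, Finset.sum_comm]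
  refine Finset.sum_congr rfl fun x _ => ?_
  rw [Finset.sum_ite_eq]
  simp

lemma sum_im_mul (p : Ω → ℝ) (φ : Ω → Ω') (F : Ω' → ℝ) :
    ∑ y, im p φ y * F y = ∑ x, p x * F (φ x) := by
  have : ∀ y, im p φ y * F y = ∑ x, if φ x = y then p x * F (φ x) else 0 := by
    intro y
    rw [im_eq_sum, Finset.sum_mul]
    refine Finset.sum_congr rfl fun x _ => ?_
    by_cases h : φ x = y
    · rw [if_pos h, if_pos h, h]
    · rw [if_neg h, if_neg h, zero_mul]
  rw [Finset.sum_congr rfl fun y _ => this y, Finset.sum_comm]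
  refine Finset.sum_congr rfl fun x _ => ?_
  rw [Finset.sum_ite_eq]
  simp

/-- The image of a law is a law. -/
lemma IsLaw.im (hp : IsLaw p) (φ : Ω → Ω') : IsLaw (im p φ) := by
  constructor
  · exact fun y => im_nonneg hp φ y
  · have := sum_im_mul p φ (fun _ => 1)
    simpa [hp.total] using this

/-- Entropy of functions of `φ`, computed with the image law of `φ`. -/
theorem H_im (p : Ω → ℝ) (φ : Ω → Ω') (u : Ω' → α) :
    H (im p φ) u = H p (fun x => u (φ x)) := by
  unfold H
  rw [sum_im_mul p φ (fun y => -Real.log (im (im p φ) u (u y)))]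
  refine Finset.sum_congr rfl fun x _ => ?_
  rw [im_comp]

/-- If `φ` carries the law `p` to the law `q`, then entropies of functions of `φ` agree. -/
theorem H_map {q : Ω' → ℝ} {φ : Ω → Ω'} (h : im p φ = q) (u : Ω' → α) :
    H p (fun x => u (φ x)) = H q u := by
  rw [← h, H_im]

/-- Equal image laws give equal entropies. -/
theorem H_eq_of_im_eq {q : Ω' → ℝ} {f : Ω → α} {g : Ω' → α}
    (h : ∀ a, im p f a = im q g a) : H p f = H q g := by
  have k1 : H p f = ∑ a ∈ (Finset.univ.image f ∪ Finset.univ.image g),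
      AK.im p f a * -Real.log (AK.im p f a) := by
    unfold H
    have : ∀ a ∈ (Finset.univ.image f ∪ Finset.univ.image g),
        AK.im p f a * -Real.log (AK.im p f a) =
        ∑ x, if f x = a then p x * -Real.log (AK.im p f (f x)) else 0 := by
      intro a _
      conv_lhs => rw [im_eq_sum, Finset.sum_mul]
      refine Finset.sum_congr rfl fun x _ => ?_
      by_cases h : f x = a
      · rw [if_pos h, if_pos h, h, im_eq_sum]
      · rw [if_neg h, if_neg h, zero_mul]
    rw [Finset.sum_congr rfl this, Finset.sum_comm]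
    refine Finset.sum_congr rfl fun x _ => ?_
    rw [Finset.sum_ite_eq, if_pos (Finset.mem_union_left _ (Finset.mem_image_of_mem f
      (Finset.mem_univ x)))]
  have k2 : H q g = ∑ a ∈ (Finset.univ.image f ∪ Finset.univ.image g),
      AK.im q g a * -Real.log (AK.im q g a) := by
    unfold H
    have : ∀ a ∈ (Finset.univ.image f ∪ Finset.univ.image g),
        AK.im q g a * -Real.log (AK.im q g a) =
        ∑ x, if g x = a then q x * -Real.log (AK.im q g (g x)) else 0 := by
      intro a _
      conv_lhs => rw [im_eq_sum, Finset.sum_mul]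
      refine Finset.sum_congr rfl fun x _ => ?_
      by_cases h : g x = a
      · rw [if_pos h, if_pos h, h, im_eq_sum]
      · rw [if_neg h, if_neg h, zero_mul]
    rw [Finset.sum_congr rfl this, Finset.sum_comm]
    refine Finset.sum_congr rfl fun x _ => ?_
    rw [Finset.sum_ite_eq, if_pos (Finset.mem_union_right _ (Finset.mem_image_of_mem g
      (Finset.mem_univ x)))]
  rw [k1, k2]
  refine Finset.sum_congr rfl fun a _ => ?_
  rw [h a]

/-- Invertible changes of the values do not change entropies. -/
lemma H_comp_injective (p : Ω → ℝ) (f : Ω → α) {φ : α → β} (hφ : Function.Injective φ) :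
    H p (fun x => φ (f x)) = H p f := by
  unfold H
  refine Finset.sum_congr rfl fun x _ => ?_
  congr 3
  rw [im_eq_sum, im_eq_sum]
  refine Finset.sum_congr rfl fun y _ => ?_
  by_cases h : f y = f x
  · rw [if_pos h, if_pos (by rw [h])]
  · rw [if_neg h, if_neg (fun h' => h (hφ h'))]

end Map

section Glue

variable {Ω₁ Ω₂ : Type*} [Fintype Ω₁] [Fintype Ω₂] {α β γ : Type*} {p : Ω₁ → ℝ} {q : Ω₂ → ℝ}
  {f : Ω₁ → γ} {g : Ω₂ → γ}

/-- The conditionally independent coupling of `p` and `q` over the common value `f = g`. -/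
noncomputable def glue (p : Ω₁ → ℝ) (q : Ω₂ → ℝ) (f : Ω₁ → γ) (g : Ω₂ → γ) (z : Ω₁ × Ω₂) : ℝ :=
  if f z.1 = g z.2 then p z.1 * q z.2 / im p f (f z.1) else 0

lemma glue_supp {z : Ω₁ × Ω₂} (hz : glue p q f g z ≠ 0) :
    f z.1 = g z.2 ∧ p z.1 ≠ 0 ∧ q z.2 ≠ 0 := by
  unfold glue at hz
  by_cases h : f z.1 = g z.2
  · rw [if_pos h] at hz
    refine ⟨h, fun h1 => hz ?_, fun h1 => hz ?_⟩
    · rw [h1]; simp
    · rw [h1]; simp
  · rw [if_neg h] at hz
    exact absurd rfl hz

lemma glue_sum_right (hp : IsLaw p) (hfg : ∀ c, im p f c = im q g c) (x : Ω₁) :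
    ∑ y, glue p q f g (x, y) = p x := by
  have : ∀ y, glue p q f g (x, y) = p x / im p f (f x) * (if g y = f x then q y else 0) := by
    intro y
    unfold glue
    by_cases h : f x = g y
    · rw [if_pos h, if_pos h.symm]; ring
    · rw [if_neg h, if_neg (fun h' => h h'.symm), mul_zero]
  rw [Finset.sum_congr rfl fun y _ => this y, ← Finset.mul_sum, ← im_eq_sum, ← hfg]
  by_cases hx : p x = 0
  · simp [hx]
  · rw [div_mul_cancel₀ _ (im_pos hp f hx).ne']

lemma glue_sum_left (hq : IsLaw q) (hfg : ∀ c, im p f c = im q g c) (y : Ω₂) :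
    ∑ x, glue p q f g (x, y) = q y := by
  have : ∀ x, glue p q f g (x, y) = q y / im q g (g y) * (if f x = g y then p x else 0) := by
    intro x
    unfold glue
    by_cases h : f x = g y
    · rw [if_pos h, if_pos h]
      dsimp only
      rw [hfg, h]; ring
    · rw [if_neg h, if_neg h, mul_zero]
  rw [Finset.sum_congr rfl fun x _ => this x, ← Finset.mul_sum, ← im_eq_sum, hfg]
  by_cases hy : q y = 0
  · simp [hy]
  · rw [div_mul_cancel₀ _ (im_pos hq g hy).ne']

lemma glue_law (hp : IsLaw p) (hq : IsLaw q) (hfg : ∀ c, im p f c = im q g c) :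
    IsLaw (glue p q f g) := by
  constructor
  · intro z
    unfold glue
    split_ifs
    exacts [div_nonneg (mul_nonneg (hp.nonneg _) (hq.nonneg _)) (im_nonneg hp _ _), le_rfl]
  · rw [Fintype.sum_prod_type]
    rw [Finset.sum_congr rfl fun x _ => glue_sum_right hp hfg x, hp.total]

/-- The first marginal of the gluing. -/
lemma glue_fst (hp : IsLaw p) (hfg : ∀ c, im p f c = im q g c) :
    im (glue p q f g) Prod.fst = p := by
  funext x
  rw [im_eq_sum, Fintype.sum_prod_type]
  have : ∀ x', (∑ y, if (x', y).1 = x then glue p q f g (x', y) else 0) =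
      if x' = x then p x' else 0 := by
    intro x'
    by_cases h : x' = x
    · simp only [h, if_true]
      exact glue_sum_right hp hfg x
    · simp [h]
  rw [Finset.sum_congr rfl fun x' _ => this x', Finset.sum_ite_eq']
  simp

/-- The second marginal of the gluing. -/
lemma glue_snd (hq : IsLaw q) (hfg : ∀ c, im p f c = im q g c) :
    im (glue p q f g) Prod.snd = q := by
  funext y
  rw [im_eq_sum, Fintype.sum_prod_type, Finset.sum_comm]
  have : ∀ y', (∑ x, if (x, y').2 = y then glue p q f g (x, y') else 0) =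
      if y' = y then q y' else 0 := by
    intro y'
    by_cases h : y' = y
    · simp only [h, if_true]
      exact glue_sum_left hq hfg y
    · simp [h]
  rw [Finset.sum_congr rfl fun y' _ => this y', Finset.sum_ite_eq']
  simp

lemma H_glue_fst (hp : IsLaw p) (hfg : ∀ c, im p f c = im q g c) (u : Ω₁ → α) :
    H (glue p q f g) (fun z => u z.1) = H p u :=
  H_map (glue_fst hp hfg) u

lemma H_glue_snd (hq : IsLaw q) (hfg : ∀ c, im p f c = im q g c) (v : Ω₂ → α) :
    H (glue p q f g) (fun z => v z.2) = H q v :=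
  H_map (glue_snd hq hfg) v

lemma im_glue_fst (hp : IsLaw p) (hfg : ∀ c, im p f c = im q g c) (u : Ω₁ → α) (a : α) :
    im (glue p q f g) (fun z => u z.1) a = im p u a := by
  rw [← im_comp (glue p q f g) Prod.fst u a, glue_fst hp hfg]

lemma im_glue_snd (hq : IsLaw q) (hfg : ∀ c, im p f c = im q g c) (v : Ω₂ → α) (a : α) :
    im (glue p q f g) (fun z => v z.2) a = im q v a := by
  rw [← im_comp (glue p q f g) Prod.snd v a, glue_snd hq hfg]

/-- On the support, determination relations of the first factor persist. -/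
lemma Det.glue_fst {u : Ω₁ → α} {v : Ω₁ → β} (h : Det p u v) :
    Det (glue p q f g) (fun z => u z.1) (fun z => v z.1) := fun z z' hz hz' hu =>
  h z.1 z'.1 (glue_supp hz).2.1 (glue_supp hz').2.1 hu

lemma Det.glue_snd {u : Ω₂ → α} {v : Ω₂ → β} (h : Det q u v) :
    Det (glue p q f g) (fun z => u z.2) (fun z => v z.2) := fun z z' hz hz' hu =>
  h z.2 z'.2 (glue_supp hz).2.2 (glue_supp hz').2.2 hu

/-- Entropies add under the gluing. -/
theorem H_glue (hp : IsLaw p) (hq : IsLaw q) (hfg : ∀ c, im p f c = im q g c) {u : Ω₁ → α}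
    {v : Ω₂ → β} (hu : Det p u f) (hv : Det q v g) :
    H (glue p q f g) (fun z => (u z.1, v z.2)) = H p u + H q v - H p f := by
  have key : ∀ z, glue p q f g z ≠ 0 → im (glue p q f g) (fun z => (u z.1, v z.2)) (u z.1, v z.2) =
      im p u (u z.1) * im q v (v z.2) / im p f (f z.1) := by
    intro z hz
    obtain ⟨h0, h1, h2⟩ := glue_supp hz
    rw [im_eq_sum, Fintype.sum_prod_type, im_eq_sum, im_eq_sum, Finset.sum_mul_sum,
      Finset.sum_div]
    refine Finset.sum_congr rfl fun x _ => ?_
    rw [Finset.sum_div]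
    refine Finset.sum_congr rfl fun y _ => ?_
    by_cases hx : p x = 0
    · unfold glue; simp [hx]
    by_cases hy : q y = 0
    · unfold glue; simp [hy]
    by_cases ha : u x = u z.1
    · by_cases hb : v y = v z.2
      · have e1 : f x = f z.1 := hu x z.1 hx h1 ha
        have e2 : g y = g z.2 := hv y z.2 hy h2 hb
        have e3 : (u x, v y) = (u z.1, v z.2) := by rw [ha, hb]
        rw [if_pos e3, if_pos ha, if_pos hb]
        unfold glue
        dsimp only
        rw [if_pos (by rw [e1, e2, h0]), e1]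
      · have e3 : ¬ (u x, v y) = (u z.1, v z.2) := fun h => hb (congrArg Prod.snd h)
        rw [if_neg e3, if_neg hb]; simp
    · have e3 : ¬ (u x, v y) = (u z.1, v z.2) := fun h => ha (congrArg Prod.fst h)
      rw [if_neg e3, if_neg ha]; simp
  have hl := glue_law hp hq hfg
  have e1 : ∀ z, glue p q f g z *
      -Real.log (im (glue p q f g) (fun z => (u z.1, v z.2)) (u z.1, v z.2)) =
      glue p q f g z * -Real.log (im p u (u z.1)) + glue p q f g z * -Real.log (im q v (v z.2)) -
        glue p q f g z * -Real.log (im p f (f z.1)) := by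
    intro z
    by_cases hz : glue p q f g z = 0
    · simp [hz]
    obtain ⟨h0, h1, h2⟩ := glue_supp hz
    rw [key z hz, Real.log_div (mul_pos (im_pos hp u h1) (im_pos hq v h2)).ne'
      (im_pos hp f h1).ne', Real.log_mul (im_pos hp u h1).ne' (im_pos hq v h2).ne']
    ring
  unfold H
  rw [Finset.sum_congr rfl fun z _ => e1 z, Finset.sum_sub_distrib, Finset.sum_add_distrib]
  have a1 : ∀ F : Ω₁ → ℝ, ∑ z, glue p q f g z * F z.1 = ∑ x, p x * F x := by
    intro F
    have := sum_im_mul (glue p q f g) Prod.fst F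
    rw [glue_fst hp hfg] at this
    exact this.symm
  have a2 : ∀ F : Ω₂ → ℝ, ∑ z, glue p q f g z * F z.2 = ∑ y, q y * F y := by
    intro F
    have := sum_im_mul (glue p q f g) Prod.snd F
    rw [glue_snd hq hfg] at this
    exact this.symm
  rw [a1 (fun x => -Real.log (im p u (u x))), a2 (fun y => -Real.log (im q v (v y))),
    a1 (fun x => -Real.log (im p f (f x)))]

end Glue

end Pool.Agent.W904.AK
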