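import Pool.Agent.W790.AK.Num
import Pool.Agent.W131.AK.Z
import Pool.Agent.W932.AK.WDex
import Pool.Agent.W349.AK.Avg
import Pool.Agent.W904.AK.Final

/-!
# Sums-differences with exponent 1.67486: assembly of the parts
-/

set_option autoImplicit false

namespace Pool.Agent.W904.AK
open Pool.Agent.W859.AK

/-- The assembly, from the three parts named as hypotheses. -/
theorem sdc_of (hKT : S_KT) (hW : S_Z → S_WD → S_W)
    (hSTEP : S_KT → S_W → S_AVG → S_SHIFT → S_STEP) : SDc (167486 / 100000) :=
  Pool.Agent.W790.AK.finalSD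
    (hSTEP hKT (hW Pool.Agent.W131.AK.Z Pool.Agent.W932.AK.WD_exists)
      Pool.Agent.W349.AK.AVG Pool.Agent.W790.AK.SHIFT)
    minimax base proj

end Pool.Agent.W904.AK
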