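import Pool.Agent.W904.AK.Pre
import Pool.Agent.W349.AK.KT
import Pool.Agent.W859.AK.W
import Pool.Agent.W410.AK.Step

/-!
# Sums-differences with exponent 1.67486
-/

set_option autoImplicit false

namespace Pool.Agent.W904.AK
open Pool.Agent.W859.AK

/-- `SD (1.67486)`: the exponent of sums-differences is at most `1.67486`. -/
theorem sdc : SDc (167486 / 100000) :=
  sdc_of Pool.Agent.W349.AK.KT Pool.Agent.W859.AK.W Pool.Agent.W410.AK.STEP

end Pool.Agent.W904.AK
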